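import Pool.Agent.helper3.MatroidUnion

/-!
# Colouring the bases of a matroid by at most `dim + 1` colours
-/

set_option autoImplicit false

open Set

namespace Pool.Agent.helper3

/-- If `V` contains all differences `e_x - e_j`, `x ∈ S`, then `|S| ≤ dim V + 1`. -/
lemma ncard_le_finrank_add_one {n : ℕ} (V : Submodule ℝ (Fin n → ℝ)) (S : Set (Fin n)) (j : Fin n)
    (hj : j ∈ S)
    (h : ∀ x ∈ S, (Pi.single x (1 : ℝ) - Pi.single j (1 : ℝ) : Fin n → ℝ) ∈ V) :
    S.ncard ≤ Module.finrank ℝ V + 1 := by
  classical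
  let T : Set (Fin n) := S \ {j}
  have hT : T.ncard + 1 = S.ncard := Set.ncard_sdiff_singleton_add_one hj (Set.toFinite _)
  let v : T → V := fun x => ⟨Pi.single x.1 (1 : ℝ) - Pi.single j (1 : ℝ), h x.1 x.2.1⟩
  let L : V →ₗ[ℝ] (T → ℝ) := (LinearMap.funLeft ℝ ℝ (fun x : T => x.1)).comp V.subtype
  have hli : LinearIndependent ℝ v := by
    apply LinearIndependent.of_comp L
    have : (L ∘ v) = fun x : T => (Pi.single x (1 : ℝ) : T → ℝ) := by
      funext x y
      have hyj : (y.1 : Fin n) ≠ j := fun hc => y.2.2 hc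
      simp only [L, v, Function.comp, LinearMap.comp_apply, Submodule.subtype_apply,
        LinearMap.funLeft_apply, Pi.sub_apply]
      rw [Pi.single_eq_of_ne hyj]
      by_cases hxy : y = x
      · subst hxy
        simp
      · rw [Pi.single_eq_of_ne hxy, Pi.single_eq_of_ne (fun hc => hxy (Subtype.ext hc))]
        simp
    rw [this]
    have h2 := (Pi.basisFun ℝ T).linearIndependent
    convert h2 using 1
    funext x
    simp [Pi.basisFun_apply]
  have h3 := hli.fintype_card_le_finrank
  have h4 : Fintype.card T = T.ncard := by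
    rw [← Nat.card_coe_set_eq, Nat.card_eq_fintype_card]
  omega

/-- the vector space of directions of the base polytope -/
noncomputable abbrev dirs {n : ℕ} (M : Matroid (Fin n)) : Submodule ℝ (Fin n → ℝ) :=
  (affineSpan ℝ ((fun B : Set (Fin n) => B.indicator (fun _ : Fin n => (1 : ℝ))) ''
                {B : Set (Fin n) | M.IsBase B})).direction

lemma sub_mem_dirs {n : ℕ} {M : Matroid (Fin n)} {B C : Set (Fin n)} (hB : M.IsBase B)
    (hC : M.IsBase C) :
    (B.indicator (fun _ : Fin n => (1 : ℝ)) - C.indicator (fun _ : Fin n => (1 : ℝ))) ∈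
      dirs M := by
  have h1 : B.indicator (fun _ : Fin n => (1 : ℝ)) ∈ affineSpan ℝ
      ((fun B : Set (Fin n) => B.indicator (fun _ : Fin n => (1 : ℝ))) ''
                {B : Set (Fin n) | M.IsBase B}) :=
    subset_affineSpan ℝ _ ⟨B, hB, rfl⟩
  have h2 : C.indicator (fun _ : Fin n => (1 : ℝ)) ∈ affineSpan ℝ
      ((fun B : Set (Fin n) => B.indicator (fun _ : Fin n => (1 : ℝ))) ''
                {B : Set (Fin n) | M.IsBase B}) :=
    subset_affineSpan ℝ _ ⟨C, hC, rfl⟩
  have h3 := AffineSubspace.vsub_mem_direction h1 h2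
  simpa using h3

/-- exchanging `j ∈ B` for `x ∉ B` changes the indicator by `e_x - e_j`. -/
lemma indicator_exchange {n : ℕ} {B : Set (Fin n)} {j x : Fin n} (hj : j ∈ B) (hx : x ∉ B) :
    (insert x (B \ {j})).indicator (fun _ : Fin n => (1 : ℝ)) -
      B.indicator (fun _ : Fin n => (1 : ℝ)) = Pi.single x (1 : ℝ) - Pi.single j (1 : ℝ) := by
  classical
  funext y
  have hxj : x ≠ j := fun hc => hx (hc ▸ hj)
  simp only [Pi.sub_apply, Set.indicator_apply, mem_insert_iff, mem_sdiff, mem_singleton_iff]
  by_cases hyx : y = x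
  · subst hyx
    rw [Pi.single_eq_same, Pi.single_eq_of_ne hxj]
    simp [hx]
  · by_cases hyj : y = j
    · subst hyj
      rw [Pi.single_eq_same, Pi.single_eq_of_ne hyx]
      simp [hj, hyx]
    · rw [Pi.single_eq_of_ne hyx, Pi.single_eq_of_ne hyj]
      simp [hyx, hyj]

/-- A set with at most `d + 1` elements can be injectively coloured by `Fin (d + 1)`. -/
lemma exists_injOn_fin {n d : ℕ} (S : Set (Fin n)) (h : S.ncard ≤ d + 1) :
    ∃ ι : Fin n → Fin (d + 1), Set.InjOn ι S := by
  classical
  have h1 : Fintype.card S ≤ Fintype.card (Fin (d + 1)) := by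
    rw [Fintype.card_fin, ← Nat.card_eq_fintype_card, Nat.card_coe_set_eq]
    exact h
  obtain ⟨g⟩ := Function.Embedding.nonempty_of_card_le h1
  refine ⟨fun x => if hx : x ∈ S then g ⟨x, hx⟩ else 0, ?_⟩
  intro x hx y hy hxy
  simp only [hx, hy, dif_pos] at hxy
  have := g.injective hxy
  exact congrArg Subtype.val this

/-- The colouring statement from a set `S` of colours: every member of a family `P` of bases is
assigned a colour of `S` by the relation `R`. -/
lemma exists_colouring {n d : ℕ} (S : Set (Fin n)) (h : S.ncard ≤ d + 1)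
    (P : Set (Fin n) → Prop) (R : Set (Fin n) → Fin n → Prop)
    (hP : ∀ B, P B → ∃ x ∈ S, R B x) :
    ∃ f : Set (Fin n) → Fin (d + 1), ∀ B C, P B → P C → f B = f C → ∃ x ∈ S, R B x ∧ R C x := by
  classical
  obtain ⟨ι, hι⟩ := exists_injOn_fin S h
  refine ⟨fun B => if hB : P B then ι (Classical.choose (hP B hB)) else 0, ?_⟩
  intro B C hB hC hBC
  simp only [hB, hC, dif_pos] at hBC
  have s1 := Classical.choose_spec (hP B hB)
  have s2 := Classical.choose_spec (hP C hC)
  have e := hι s1.1 s2.1 hBC
  exact ⟨_, s1.1, s1.2, by rw [e]; exact s2.2⟩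

theorem borsuk (n : ℕ) (M : Matroid (Fin n))
    (h : ∃ B₁ B₂ : Set (Fin n), M.IsBase B₁ ∧ M.IsBase B₂ ∧ B₁ ≠ B₂) :
    ∃ f : Set (Fin n) → Fin (Module.finrank ℝ (dirs M) + 1),
        ∀ B₁ B₂ : Set (Fin n), M.IsBase B₁ → M.IsBase B₂ → f B₁ = f B₂ →
          ∃ C₁ C₂ : Set (Fin n), M.IsBase C₁ ∧ M.IsBase C₂ ∧
            (symmDiff B₁ B₂).ncard < (symmDiff C₁ C₂).ncard := by
  classical
  obtain ⟨A, D₁, D₂, hD₁, hD₂, hcard, hdiam⟩ := exists_diam M
  rcases Nat.eq_zero_or_pos (rk M A) with h0 | hpos
  · -- all elements of `A` are loops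
    obtain ⟨B, B', hB, hB', hne⟩ := h
    -- an element of `B'` outside `B`
    have hex : ∃ y ∈ B', y ∉ B := by
      by_contra hcon
      push Not at hcon
      exact hne (hB'.eq_of_subset_isBase hB hcon).symm
    obtain ⟨y, hyB', hyB⟩ := hex
    have hyE : y ∈ M.E := hB'.subset_ground hyB'
    have hycl : y ∈ M.closure B := by rw [hB.closure_eq]; exact hyE
    let S : Set (Fin n) := M.fundCircuit y B
    have hcirc : M.IsCircuit S := hB.fundCircuit_isCircuit hyE hyB
    have hyS : y ∈ S := M.mem_fundCircuit y B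
    have hSsub : S ⊆ insert y B := M.fundCircuit_subset_insert y B
    -- elements of S are not in A
    have hSA : ∀ x ∈ S, x ∉ A := by
      intro x hx hxA
      have hind : M.Indep {x} := by
        rcases hSsub hx with rfl | hxB
        · exact hB'.indep.subset (singleton_subset_iff.2 hyB')
        · exact hB.indep.subset (singleton_subset_iff.2 hxB)
      have := indep_ncard_le_rk hind (singleton_subset_iff.2 hxA)
      rw [Set.ncard_singleton] at this
      omega
    have hSE : S ⊆ M.E := hcirc.subset_ground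
    -- dimension bound
    have hdim : S.ncard ≤ Module.finrank ℝ (dirs M) + 1 := by
      apply ncard_le_finrank_add_one _ S y hyS
      intro x hx
      rcases hSsub hx with rfl | hxB
      · simp
      · have hxy : x ≠ y := fun hc => hyB (hc ▸ hxB)
        have hbase : M.IsBase (insert y (B \ {x})) := by
          have hi : M.Indep (insert y B \ {x}) :=
            (hB.indep.mem_fundCircuit_iff hycl hyB).1 hx
          apply hB.exchange_isBase_of_indep hyB
          rwa [insert_sdiff_of_notMem _ (by simpa using hxy.symm)] at hi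
        have h1 := sub_mem_dirs hB hbase
        have h2 := indicator_exchange hxB hyB
        rw [← neg_sub, h2, neg_sub] at h1
        exact h1
    obtain ⟨f, hf⟩ := exists_colouring S hdim (fun B => M.IsBase B) (fun B x => x ∉ B)
      (fun C hC => by
        by_contra hcon
        push Not at hcon
        exact hcirc.not_indep (hC.indep.subset hcon))
    refine ⟨f, ?_⟩
    intro C D hC hD hCD
    obtain ⟨x, hxS, hxC, hxD⟩ := hf C D hC hD hCD
    refine ⟨D₁, D₂, hD₁, hD₂, ?_⟩
    by_contra hlt
    obtain ⟨-, -, -, hcov⟩ := hdiam C D hC hD hlt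
    rcases hcov ⟨hSE hxS, hSA x hxS⟩ with hx | hx
    · exact hxC hx
    · exact hxD hx
  · -- rank of `A` positive: cocircuit colouring
    have hne : (D₁ ∩ A).Nonempty := by
      rw [← Set.ncard_pos (Set.toFinite _)]
      omega
    obtain ⟨j, hjD, hjA⟩ := hne
    set J := D₁ ∩ A with hJ
    have hJind : M.Indep J := hD₁.indep.subset inter_subset_left
    have hjJ : j ∈ J := ⟨hjD, hjA⟩
    have hJb : M.IsBasis' J A := by
      rw [Matroid.isBasis'_iff_indep_encard_eq_of_finite (Set.toFinite _)]
      refine ⟨inter_subset_right, hJind, ?_⟩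
      rw [← Set.Finite.cast_ncard_eq (Set.toFinite J), hcard, coe_rk]
    let S : Set (Fin n) := {x | x ∈ A ∧ x ∈ M.E ∧ x ∉ M.closure (J \ {j})}
    have hjS : j ∈ S :=
      ⟨hjA, hD₁.subset_ground hjD, hJind.notMem_closure_sdiff_of_mem hjJ⟩
    have hdim : S.ncard ≤ Module.finrank ℝ (dirs M) + 1 := by
      apply ncard_le_finrank_add_one _ S j hjS
      rintro x ⟨hxA, hxE, hxcl⟩
      by_cases hxj : x = j
      · subst hxj; simp
      · have hxJ : x ∈ M.closure J := by
          rw [hJb.closure_eq_closure]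
          exact M.mem_closure_of_mem' hxA hxE
        have hx1 : x ∉ M.closure (D₁ \ {j}) := by
          intro hcon
          apply hxcl
          have h1 : M.closure (J ∩ (D₁ \ {j})) = M.closure J ∩ M.closure (D₁ \ {j}) := by
            apply Matroid.Indep.closure_inter_eq_inter_closure
            exact hD₁.indep.subset (union_subset inter_subset_left sdiff_subset)
          have h2 : J ∩ (D₁ \ {j}) = J \ {j} := by
            rw [hJ]
            ext z
            simp only [mem_inter_iff, mem_sdiff, mem_singleton_iff]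
            tauto
          rw [← h2, h1]
          exact ⟨hxJ, hcon⟩
        have hxD : x ∉ D₁ := by
          intro hcon
          exact hx1 (M.mem_closure_of_mem' ⟨hcon, hxj⟩ hxE)
        have hbase := hD₁.exchange_base_of_notMem_closure hjD hx1 hxE
        have h1 := sub_mem_dirs hbase hD₁
        rwa [indicator_exchange hjD hxD] at h1
    obtain ⟨f, hf⟩ := exists_colouring S hdim (fun B => M.IsBase B ∧ (B ∩ A).ncard = rk M A)
      (fun B x => x ∈ B)
      (fun C hC => by
        by_contra hcon
        push Not at hcon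
        obtain ⟨hCb, hCc⟩ := hC
        have hsub : C ∩ A ⊆ M.closure (J \ {j}) := by
          intro x hx
          by_contra hx'
          exact hcon x ⟨hx.2, hCb.subset_ground hx.1, hx'⟩ hx.1
        have h1 := indep_ncard_le_rk (hCb.indep.subset inter_subset_left) hsub
        have h2 : rk M (M.closure (J \ {j})) = rk M (J \ {j}) := by
          unfold rk
          rw [M.eRk_closure_eq]
        rw [h2] at h1
        have h3 := rk_le_ncard M (J \ {j})
        have h4 := Set.ncard_sdiff_singleton_add_one hjJ (Set.toFinite _)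
        omega)
    refine ⟨f, ?_⟩
    intro C D hC hD hCD
    refine ⟨D₁, D₂, hD₁, hD₂, ?_⟩
    by_contra hlt
    obtain ⟨hc1, hc2, hdisj, -⟩ := hdiam C D hC hD hlt
    obtain ⟨x, hxS, hxC, hxD⟩ := hf C D ⟨hC, hc1⟩ ⟨hD, hc2⟩ hCD
    exact Set.disjoint_left.1 hdisj ⟨hxC, hxS.1⟩ ⟨hxD, hxS.1⟩

end Pool.Agent.helper3
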