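import Pool.Agent.helper3.MatroidInter

/-!
# The farthest pairs of bases of a finite matroid

There are a set `A` and two bases attaining the union bound `|E \ A| + 2 r(A)`.
-/

set_option autoImplicit false

open Set

namespace Pool.Agent.helper3

set_option linter.unusedSectionVars false

variable {α : Type*} [Finite α]

lemma base_ncard_eq {M : Matroid α} {B C : Set α} (hB : M.IsBase B) (hC : M.IsBase C) :
    B.ncard = C.ncard := hB.ncard_eq_ncard_of_isBase hC

/-- key structure: (a case of) the matroid union theorem for two copies of one matroid -/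
theorem exists_key (M : Matroid α) :
    ∃ (A B₁ B₂ : Set α), M.IsBase B₁ ∧ M.IsBase B₂ ∧ (B₁ ∩ A).ncard = rk M A ∧
      (B₂ ∩ A).ncard = rk M A ∧ Disjoint (B₁ ∩ A) (B₂ ∩ A) ∧ M.E \ A ⊆ B₁ ∪ B₂ := by
  obtain ⟨A, I, hI, hI', hcard⟩ := exists_inter M M✶
  have a1 : (I ∩ A).ncard ≤ rk M A :=
    indep_ncard_le_rk (hI.subset inter_subset_left) inter_subset_right
  have a2 : (I \ A).ncard ≤ rk M✶ Aᶜ :=
    indep_ncard_le_rk (hI'.subset sdiff_subset) (fun x hx => hx.2)
  have a3 : (I ∩ A).ncard + (I \ A).ncard = I.ncard :=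
    Set.ncard_inter_add_ncard_sdiff_eq_ncard I A (Set.toFinite I)
  have a4 : (I ∩ A).ncard = rk M A := by omega
  have a5 : (I \ A).ncard = rk M✶ Aᶜ := by omega
  obtain ⟨B₁, hB₁, hIB₁⟩ := hI.exists_isBase_superset
  obtain ⟨hIE, B₂, hB₂, hdisj⟩ := Matroid.dual_indep_iff_exists'.1 hI'
  -- dual rank formula
  have d1 : rk M✶ Aᶜ + B₂.ncard = rk M A + (M.E \ A).ncard := by
    have h := M.eRk_dual_add_eRank' Aᶜ
    have h1 : M.eRk (M.E \ Aᶜ) = M.eRk A := by
      rw [Set.sdiff_compl, M.eRk_ground_inter]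
    have h2 : Aᶜ ∩ M.E = M.E \ A := by
      rw [Set.inter_comm]; rfl
    rw [h1, h2, ← hB₂.encard_eq_eRank, ← coe_rk, ← coe_rk,
      ← Set.Finite.cast_ncard_eq (Set.toFinite B₂),
      ← Set.Finite.cast_ncard_eq (Set.toFinite (M.E \ A))] at h
    exact_mod_cast h
  have b1 : (B₂ ∩ A).ncard ≤ rk M A :=
    indep_ncard_le_rk (hB₂.indep.subset inter_subset_left) inter_subset_right
  have b2 : (B₂ ∩ A).ncard + (B₂ \ A).ncard = B₂.ncard :=
    Set.ncard_inter_add_ncard_sdiff_eq_ncard B₂ A (Set.toFinite B₂)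
  have b3 : ((B₂ \ A) ∪ (I \ A)).ncard = (B₂ \ A).ncard + (I \ A).ncard :=
    Set.ncard_union_eq ((hdisj.symm).mono sdiff_subset sdiff_subset) (Set.toFinite _)
      (Set.toFinite _)
  have b4 : (B₂ \ A) ∪ (I \ A) ⊆ M.E \ A :=
    union_subset (sdiff_subset_sdiff_left hB₂.subset_ground) (sdiff_subset_sdiff_left hIE)
  have b5 := Set.ncard_le_ncard b4 (Set.toFinite _)
  have b6 : (B₂ ∩ A).ncard = rk M A := by omega
  have b7 : (B₂ \ A) ∪ (I \ A) = M.E \ A :=
    Set.eq_of_subset_of_ncard_le b4 (by omega) (Set.toFinite _)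
  have c1 : (B₁ ∩ A).ncard ≤ rk M A :=
    indep_ncard_le_rk (hB₁.indep.subset inter_subset_left) inter_subset_right
  have c2 : I ∩ A = B₁ ∩ A :=
    Set.eq_of_subset_of_ncard_le (inter_subset_inter_left _ hIB₁) (by omega) (Set.toFinite _)
  refine ⟨A, B₁, B₂, hB₁, hB₂, by rw [← c2]; exact a4, b6, ?_, ?_⟩
  · rw [← c2]
    exact hdisj.mono inter_subset_left inter_subset_left
  · rw [← b7]
    apply union_subset
    · exact (sdiff_subset).trans subset_union_right
    · exact (sdiff_subset.trans hIB₁).trans subset_union_left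

/-- size of the union of two sets through `A`. -/
lemma ncard_union_split (A C D : Set α) :
    (C ∪ D).ncard + ((C ∩ A) ∩ (D ∩ A)).ncard =
      (C ∩ A).ncard + (D ∩ A).ncard + ((C ∪ D) \ A).ncard := by
  have h1 : ((C ∪ D) ∩ A).ncard + ((C ∪ D) \ A).ncard = (C ∪ D).ncard :=
    Set.ncard_inter_add_ncard_sdiff_eq_ncard (C ∪ D) A (Set.toFinite _)
  have h2 := Set.ncard_union_add_ncard_inter (C ∩ A) (D ∩ A) (Set.toFinite _) (Set.toFinite _)
  rw [← Set.union_inter_distrib_right] at h2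
  omega

lemma ncard_symmDiff_add (C D : Set α) :
    (symmDiff C D).ncard + (C.ncard + D.ncard) = 2 * (C ∪ D).ncard := by
  have h1 := Set.ncard_union_add_ncard_inter C D (Set.toFinite _) (Set.toFinite _)
  have h2 : (symmDiff C D).ncard + (C ∩ D).ncard = (C ∪ D).ncard := by
    have h3 : symmDiff C D ∪ (C ∩ D) = C ∪ D := by
      rw [Set.symmDiff_def]
      ext x
      simp only [mem_union, mem_sdiff, mem_inter_iff]
      tauto
    rw [← h3, Set.ncard_union_eq _ (Set.toFinite _) (Set.toFinite _)]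
    rw [Set.disjoint_left]
    intro x hx hx'
    rw [Set.mem_symmDiff] at hx
    rcases hx with ⟨h1, h2⟩ | ⟨h1, h2⟩
    · exact h2 hx'.2
    · exact h2 hx'.1
  omega

/-- a set `A` controlling all farthest pairs of bases -/
theorem exists_diam (M : Matroid α) :
    ∃ (A B₁ B₂ : Set α), M.IsBase B₁ ∧ M.IsBase B₂ ∧ (B₁ ∩ A).ncard = rk M A ∧
      ∀ C D : Set α, M.IsBase C → M.IsBase D →
        ¬ ((symmDiff C D).ncard < (symmDiff B₁ B₂).ncard) →
        (C ∩ A).ncard = rk M A ∧ (D ∩ A).ncard = rk M A ∧ Disjoint (C ∩ A) (D ∩ A) ∧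
          M.E \ A ⊆ C ∪ D := by
  obtain ⟨A, B₁, B₂, hB₁, hB₂, h1, h2, hdisj, hcov⟩ := exists_key M
  refine ⟨A, B₁, B₂, hB₁, hB₂, h1, ?_⟩
  intro C D hC hD hlt
  have s1 := ncard_union_split A C D
  have s2 := ncard_union_split A B₁ B₂
  have s3 := ncard_symmDiff_add C D
  have s4 := ncard_symmDiff_add B₁ B₂
  have e1 := base_ncard_eq hC hB₁
  have e2 := base_ncard_eq hD hB₁
  have e3 := base_ncard_eq hB₂ hB₁
  rw [hdisj.inter_eq, Set.ncard_empty] at s2
  have t1 : (B₁ ∪ B₂) \ A = M.E \ A := by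
    apply Set.Subset.antisymm
    · exact sdiff_subset_sdiff_left (union_subset hB₁.subset_ground hB₂.subset_ground)
    · intro x hx
      exact ⟨hcov hx, hx.2⟩
  rw [t1] at s2
  have t2 : (C ∪ D) \ A ⊆ M.E \ A :=
    sdiff_subset_sdiff_left (union_subset hC.subset_ground hD.subset_ground)
  have t3 := Set.ncard_le_ncard t2 (Set.toFinite _)
  have t4 : (C ∩ A).ncard ≤ rk M A :=
    indep_ncard_le_rk (hC.indep.subset inter_subset_left) inter_subset_right
  have t5 : (D ∩ A).ncard ≤ rk M A :=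
    indep_ncard_le_rk (hD.indep.subset inter_subset_left) inter_subset_right
  have t6 : ((C ∩ A) ∩ (D ∩ A)).ncard = 0 := by omega
  refine ⟨by omega, by omega, ?_, ?_⟩
  · rw [Set.ncard_eq_zero (Set.toFinite _)] at t6
    exact Set.disjoint_iff_inter_eq_empty.2 t6
  · have t7 : (C ∪ D) \ A = M.E \ A :=
      Set.eq_of_subset_of_ncard_le t2 (by omega) (Set.toFinite _)
    rw [← t7]
    exact sdiff_subset

end Pool.Agent.helper3
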