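import Mathlib

/-!
Spectral part: a graph cospectral with the Kneser graph `K(9,3)` is 20-regular and its adjacency
matrix satisfies `A^3 + 7 A^2 - 34 A - 40 = 120 J`.
-/

open Matrix Finset

namespace Pool.Agent.helper3.K93

/-- The 3-subsets of a 9-element set. -/
abbrev Tri : Type := {s : Finset (Fin 9) // s.card = 3}

/-- The Kneser graph `K(9,3)`: two 3-subsets of `{0,…,8}` are adjacent iff they are disjoint. -/
def kneser93 : SimpleGraph Tri where
  Adj s t := Disjoint s.1 t.1
  symm := ⟨fun _ _ h => h.symm⟩
  loopless := ⟨fun s h => by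
    have h1 : s.1 = ∅ := by simpa using h
    have h2 := s.2
    rw [h1] at h2
    simp at h2⟩

instance : DecidableRel kneser93.Adj := fun s t => by
  unfold kneser93
  exact inferInstanceAs (Decidable (Disjoint s.1 t.1))

theorem kneser93_adj (s t : Tri) : kneser93.Adj s t ↔ Disjoint s.1 t.1 := Iff.rfl

theorem card_tri : Fintype.card Tri = 84 := by
  have : Fintype.card Tri = (Finset.powersetCard 3 (univ : Finset (Fin 9))).card := by
    rw [Fintype.card_subtype]
    congr 1
    ext s
    simp [Finset.mem_powersetCard]
  rw [this, Finset.card_powersetCard]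
  simp
  decide

/-- number of triples inside a given set -/
theorem cnt (F : Finset (Fin 9)) :
    (Finset.univ.filter (fun u : Tri => u.1 ⊆ F)).card = F.card.choose 3 := by
  rw [← Finset.card_powersetCard]
  apply Finset.card_bij (fun (u : Tri) _ => u.1)
  · intro u hu
    simp only [Finset.mem_filter, Finset.mem_univ, true_and] at hu
    exact Finset.mem_powersetCard.2 ⟨hu, u.2⟩
  · intro u _ v _ h
    exact Subtype.ext h
  · intro s hs
    rw [Finset.mem_powersetCard] at hs
    exact ⟨⟨s, hs.2⟩, by simpa using hs.1, rfl⟩

end Pool.Agent.helper3.K93
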