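import Pool.Agent.helper3.K93Count

open Finset

namespace Pool.Agent.helper3.K93

variable {V : Type*} [Fintype V] [DecidableEq V] {G : SimpleGraph V} [DecidableRel G.Adj]

omit [DecidableEq V] in
theorem cs2 (X Y : V → V → ℤ) :
    (∑ p, ∑ q, X p q * Y p q) ^ 2 ≤ (∑ p, ∑ q, X p q * X p q) * (∑ p, ∑ q, Y p q * Y p q) := by
  have h := Finset.sum_mul_sq_le_sq_mul_sq (Finset.univ : Finset (V × V))
    (fun p => X p.1 p.2) (fun p => Y p.1 p.2)
  simp only [Fintype.sum_prod_type, pow_two (X _ _), pow_two (Y _ _)] at h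
  exact h

omit [DecidableEq V] in
/-- swapping a sum over a finset `N` out of a double sum -/
theorem swap3 (N : Finset V) (F : V → V → V → ℤ) :
    ∑ p, ∑ q, ∑ w ∈ N, F p q w = ∑ w ∈ N, ∑ p, ∑ q, F p q w := by
  calc ∑ p, ∑ q, ∑ w ∈ N, F p q w = ∑ p, ∑ w ∈ N, ∑ q, F p q w :=
        Finset.sum_congr rfl fun p _ => Finset.sum_comm
    _ = ∑ w ∈ N, ∑ p, ∑ q, F p q w := Finset.sum_comm

omit [DecidableEq V] in
theorem prod4 (a b c e : V → ℤ) :
    ∑ p, ∑ q, (a p * b q) * (c p * e q) = (∑ p, a p * c p) * (∑ q, b q * e q) := by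
  rw [Finset.sum_mul_sum]
  refine Finset.sum_congr rfl fun p _ => Finset.sum_congr rfl fun q _ => by ring

/-- difference of the two rows on a line through `y` -/
noncomputable def dd (G : SimpleGraph V) [DecidableRel G.Adj] (y w z : V) : ℤ :=
  mG G w z - mG G (third G y w) z

variable (D : Dat G) (htri : ∀ v w, G.Adj v w → ∃ u, G.Adj u v ∧ G.Adj u w)

include D

theorem sq' (v w : V) : ∑ z, mG G v z * mG G w z = 126 * mG G v w := by
  rw [← D.sq v w]
  refine Finset.sum_congr rfl fun z _ => by rw [mG_symm G w z]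

include htri

theorem dd_dd {y w v : V} (hw : G.Adj y w) (hv : G.Adj y v) :
    ∑ z, dd G y w z * dd G y v z = 504 * (mG G w v - 3) := by
  have h1 : ∀ z, dd G y w z * dd G y v z = mG G w z * mG G v z - mG G w z * mG G (third G y v) z
      - mG G (third G y w) z * mG G v z + mG G (third G y w) z * mG G (third G y v) z := by
    intro z; unfold dd; ring
  rw [Finset.sum_congr rfl (fun z _ => h1 z)]
  simp only [Finset.sum_add_distrib, Finset.sum_sub_distrib, sq' D]
  have e1 := line_sum D htri hw v
  have e2 := line_sum D htri hw (third G y v)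
  have e3 := line_sum D htri hv w
  rw [m_adj D htri hv] at e1
  rw [m_adj D htri (adj_third_left D htri hv)] at e2
  rw [m_adj D htri hw, mG_symm G v w, mG_symm G (third G y v) w] at e3
  linarith

theorem dd_y {y w : V} (hw : G.Adj y w) : ∑ z, dd G y w z * mG G y z = 0 := by
  have h1 : ∀ z, dd G y w z * mG G y z = mG G w z * mG G y z - mG G (third G y w) z * mG G y z := by
    intro z; unfold dd; ring
  rw [Finset.sum_congr rfl (fun z _ => h1 z)]
  simp only [Finset.sum_sub_distrib, sq' D]
  rw [m_adj D htri hw.symm, m_adj D htri (adj_third_left D htri hw).symm]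
  norm_num

omit htri in
theorem dd_M (y w p : V) : ∑ q, mG G p q * dd G y w q = 126 * dd G y w p := by
  have h1 : ∀ q, mG G p q * dd G y w q = mG G p q * mG G w q - mG G p q * mG G (third G y w) q := by
    intro q; unfold dd; ring
  rw [Finset.sum_congr rfl (fun q _ => h1 q)]
  simp only [Finset.sum_sub_distrib, sq' D]
  unfold dd
  rw [mG_symm G p w, mG_symm G p]
  ring

theorem row228 {y w : V} (hw : G.Adj y w) (h6 : nk G y 6 = 6) :
    ∑ v ∈ G.neighborFinset y, (mG G w v - 3) ^ 2 = 228 := by
  have h1 : ∀ v ∈ G.neighborFinset y, (mG G w v - 3) ^ 2 = 1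
      + 8 * (if mG G w v = 6 then (1:ℤ) else 0) + 8 * (if mG G w v = 0 then (1:ℤ) else 0)
      + 80 * (if mG G w v = 12 then (1:ℤ) else 0) + 80 * (if mG G w v = -6 then (1:ℤ) else 0) := by
    intro v hv
    rw [SimpleGraph.mem_neighborFinset] at hv
    have e1 := line_sum D htri hv w
    rw [m_adj D htri hw, mG_symm G v w, mG_symm G (third G y v) w] at e1
    have e2 := range_all D htri w v
    have e3 := range_all D htri w (third G y v)
    have e4 : mG G w v ≠ -4 := by omega
    rcases e2 with h | h | h | h | h | h | h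
    · rw [h]; norm_num
    · rw [h]; norm_num
    · exact absurd h e4
    · rw [h]; norm_num
    · rw [h]; norm_num
    · rw [h]; norm_num
    · rw [h]; norm_num
  rw [Finset.sum_congr rfl h1]
  simp only [Finset.sum_add_distrib, ← Finset.mul_sum, Finset.sum_boole, Finset.sum_const,
    nsmul_eq_mul, mul_one]
  have a1 : (((G.neighborFinset y).filter (fun a => mG G w a = 6)).card : ℤ) = 3 :=
    T3 D htri hw h6
  have a2 : (((G.neighborFinset y).filter (fun a => mG G w a = 0)).card : ℤ) = 3 := by
    rw [← TT_eq0 D htri hw]; exact T3 D htri hw h6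
  have a3 : (((G.neighborFinset y).filter (fun a => mG G w a = -6)).card : ℤ) = 1 := by
    rw [card_common D htri, cN_adj D htri hw.symm]
  have a4 : (((G.neighborFinset y).filter (fun a => mG G w a = 12)).card : ℤ) = 1 := by
    rw [invol D htri w y 12, m_adj D htri hw.symm]
    norm_num
    exact_mod_cast a3
  rw [a1, a2, a3, a4, D.deg y]
  norm_num

/-- the exceptional type does not occur -/
theorem no6 (y : V) : nk G y 6 ≠ 6 := by
  intro h6
  set N := G.neighborFinset y with hN
  have hNc : (N.card : ℤ) = 20 := D.deg y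
  let X : V → V → ℤ := fun p q => ∑ w ∈ N, dd G y w p * dd G y w q
  let Y : V → V → ℤ := fun p q => 12 * mG G p q - mG G y p * mG G y q
  have hXY : ∑ p, ∑ q, X p q * Y p q = 20 * (12 * 126 * 126 * 36) := by
    have h1 : ∀ p q, X p q * Y p q = ∑ w ∈ N, (12 * (dd G y w p * (mG G p q * dd G y w q))
        - (dd G y w p * dd G y w q) * (mG G y p * mG G y q)) := by
      intro p q
      simp only [X, Y]
      rw [Finset.sum_mul]
      refine Finset.sum_congr rfl fun w _ => by ring
    simp only [h1]
    rw [swap3]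
    have h2 : ∀ w ∈ N, ∑ p, ∑ q, (12 * (dd G y w p * (mG G p q * dd G y w q))
        - (dd G y w p * dd G y w q) * (mG G y p * mG G y q)) = 12 * 126 * 126 * 36 := by
      intro w hw
      rw [hN, SimpleGraph.mem_neighborFinset] at hw
      simp only [Finset.sum_sub_distrib]
      rw [prod4, dd_y D htri hw]
      simp only [← Finset.mul_sum, dd_M D]
      have h3 : ∀ p, dd G y w p * (126 * dd G y w p) = 126 * (dd G y w p * dd G y w p) := by
        intro p; ring
      simp only [h3, ← Finset.mul_sum]
      rw [dd_dd D htri hw hw, m_self D]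
      norm_num
    rw [Finset.sum_congr rfl h2, Finset.sum_const, nsmul_eq_mul, hNc]
  have hXX : ∑ p, ∑ q, X p q * X p q = 504 ^ 2 * (20 * 228) := by
    have h1 : ∀ p q, X p q * X p q = ∑ w ∈ N, ∑ v ∈ N, (dd G y w p * dd G y w q) *
        (dd G y v p * dd G y v q) := by
      intro p q
      simp only [X]
      rw [Finset.sum_mul_sum]
    simp only [h1]
    rw [swap3]
    have h2 : ∀ w ∈ N, ∑ p, ∑ q, ∑ v ∈ N, (dd G y w p * dd G y w q) *
        (dd G y v p * dd G y v q) = 504 ^ 2 * 228 := by
      intro w hw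
      rw [hN, SimpleGraph.mem_neighborFinset] at hw
      rw [swap3]
      have h3 : ∀ v ∈ N, ∑ p, ∑ q, (dd G y w p * dd G y w q) * (dd G y v p * dd G y v q)
          = 504 ^ 2 * (mG G w v - 3) ^ 2 := by
        intro v hv
        rw [hN, SimpleGraph.mem_neighborFinset] at hv
        rw [prod4, dd_dd D htri hw hv]
        ring
      rw [Finset.sum_congr rfl h3, ← Finset.mul_sum, row228 D htri hw h6]
    rw [Finset.sum_congr rfl h2, Finset.sum_const, nsmul_eq_mul, hNc]
    ring
  have hYY : ∑ p, ∑ q, Y p q * Y p q = 126 ^ 2 * 1008 := by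
    have h1 : ∀ p q, Y p q * Y p q = 144 * (mG G p q * mG G p q)
        - 24 * (mG G y p * (mG G p q * mG G y q)) + (mG G y p * mG G y q) * (mG G y p * mG G y q)
        := by
      intro p q; simp only [Y]; ring
    simp only [h1, Finset.sum_add_distrib, Finset.sum_sub_distrib]
    rw [prod4]
    simp only [← Finset.mul_sum, sq' D, m_self D]
    have h3 : ∀ p, mG G y p * (126 * mG G p y) = 126 * (mG G y p * mG G y p) := by
      intro p; rw [mG_symm G p y]; ring
    simp only [h3, ← Finset.mul_sum, sq' D, m_self D]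
    rw [Finset.sum_const, Finset.card_univ, D.card]
    norm_num
  have := cs2 X Y
  rw [hXY, hXX, hYY] at this
  norm_num at this

theorem m_values (v w : V) : mG G v w = 12 ∨ mG G v w = -6 ∨ mG G v w = 0 ∨ mG G v w = 6 := by
  have h := (n6_cases D htri v).resolve_left (no6 D htri v)
  have key : ∀ k, nk G v k = 0 → mG G v w ≠ k := by
    intro k hk e
    unfold nk at hk
    have h1 : (Finset.univ.filter (fun w => mG G v w = k)).card = 0 := by exact_mod_cast hk
    rw [Finset.card_eq_zero, Finset.filter_eq_empty_iff] at h1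
    exact h1 (Finset.mem_univ w) e
  have h1 := key (-4) h.2.1
  have h2 := key 2 h.2.2.1
  have h3 := key 4 h.2.2.2.1
  have h4 := range_all D htri v w
  omega

end Pool.Agent.helper3.K93
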