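import Pool.Agent.helper3.K93Frob

open Finset

namespace Pool.Agent.helper3.K93

namespace RD

variable {V : Type*} [Fintype V] [DecidableEq V] {g : V → V → ℤ} (R : RD V g)

include R

/-- no vertex is `-(w+v-y)` -/
theorem no_neg {y w v a : V} (h1 : g y w = 1) (h2 : g y v = 1) (h3 : g w v = 0)
    (ha : g w a = -1) (hb : g v a = -1) : g y a = -1 := by
  rcases R.adj_val h1 ha with h | h
  · exact h
  · exfalso
    have e : ∀ z, g a z + g w z + g v z - g y z = 0 := by
      intro z
      apply R.eq4'
      rw [R.symm a w, R.symm a v, R.symm a y, R.symm w y, R.symm v y]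
      omega
    obtain ⟨t, ht⟩ := R.third w a ha
    have h4 : g t y = -1 := by
      have := ht y; have := e y
      have h5 := R.self y
      have h6 := R.symm w y; have h7 := R.symm v y
      omega
    obtain ⟨s, hs⟩ := R.third t y h4
    have h5 := hs v
    have h6 := ht v
    have h7 := e v
    have h8 := R.ge s v
    have h9 := R.self v
    omega

theorem common3 {y w v : V} (h1 : g y w = 1) (h2 : g y v = 1) (h3 : g w v = 0) :
    ((univ.filter (fun a => g w a = 1 ∧ g v a = 1 ∧ g y a = 1)).card : ℤ) = 2 := by
  have hT := R.tprime w v y
  rw [R.symm v y, h2, h3] at hT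
  have hwv : w ≠ v := by intro e; rw [e, R.self] at h3; omega
  have hyw : y ≠ w := by intro e; rw [e, R.self] at h1; omega
  have hyv : y ≠ v := by intro e; rw [e, R.self] at h2; omega
  have e1 : ∀ a ∈ univ.filter (fun a => g w a = -1), g a v * g a y
      = if g v a = -1 then 1 else 0 := by
    intro a ha
    simp only [mem_filter, mem_univ, true_and] at ha
    have hav : v ≠ a := by intro e; rw [← e, h3] at ha; omega
    rw [R.symm a v, R.symm a y]
    rcases R.vals v a hav with h | h | h
    · have h4 := R.adj_val h1 ha
      have h5 : g y a = 0 := by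
        rcases h4 with h4 | h4
        · have := R.adj_val (y := v) (w := y) (by rw [R.symm]; exact h2) h4
          omega
        · exact h4
      rw [h, h5]; norm_num
    · rw [h]; norm_num
    · rw [h, R.no_neg h1 h2 h3 ha h]; norm_num
  have e2 : ∑ a ∈ univ.filter (fun a => g w a = -1), g a v * g a y = 4 := by
    rw [Finset.sum_congr rfl e1, Finset.sum_boole, Finset.filter_filter]
    have := R.com w v hwv (by rw [h3]; norm_num)
    rw [h3] at this
    simpa using this
  have e3 : ∀ z ∈ univ.filter (fun a => g w a = 1), g z v * g z y
      = (if g v z = 1 ∧ g y z = 1 then 1 else 0) + 2 * (if z = y then 1 else 0) := by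
    intro z hz
    simp only [mem_filter, mem_univ, true_and] at hz
    have hzv : v ≠ z := by intro e; rw [← e, h3] at hz; omega
    by_cases hzy : z = y
    · subst hzy
      rw [h2, R.self, R.symm v z, h2]; norm_num
    · have h4 := R.vals y z (Ne.symm hzy)
      have h5 := R.not_adj (y := w) (a := y) (b := z) (by rw [R.symm]; exact h1) hz
      rw [R.symm z v, R.symm z y]
      rcases R.vals v z hzv with h | h | h
      · rcases h4 with h4 | h4 | h4
        · rw [h, h4]; simp [hzy]
        · rw [h, h4]; simp [hzy]
        · exact absurd h4 h5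
      · rw [h]; simp [hzy]
      · have h6 := R.adj_val h2 h
        have h7 : g y z = 0 := by omega
        rw [h, h7]; simp [hzy]
  have e4 : ∑ z ∈ univ.filter (fun a => g w a = 1), g z v * g z y
      = ((univ.filter (fun a => g w a = 1 ∧ g v a = 1 ∧ g y a = 1)).card : ℤ) + 2 := by
    rw [Finset.sum_congr rfl e3, Finset.sum_add_distrib, Finset.sum_boole, Finset.filter_filter,
      ← Finset.mul_sum, Finset.sum_ite_eq']
    have : g w y = 1 := by rw [R.symm]; exact h1
    simp [this]
  rw [e2, e4] at hT
  linarith

/-- the fourth corner of a quadrangle -/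
theorem corner {y w v : V} (h1 : g y w = 1) (h2 : g y v = 1) (h3 : g w v = 0) :
    ∃ u, ∀ z, g u z = g w z + g v z - g y z := by
  have c4 := R.common4 h3
  have c3 := R.common3 h1 h2 h3
  by_contra hcon
  have hsub : univ.filter (fun a => g w a = 1 ∧ g v a = 1) ⊆
      univ.filter (fun a => g w a = 1 ∧ g v a = 1 ∧ g y a = 1) ∪ {y} := by
    intro a ha
    simp only [mem_filter, mem_univ, true_and] at ha
    simp only [mem_union, mem_filter, mem_univ, true_and, mem_singleton]
    by_cases hay : a = y
    · right; exact hay
    · left
      refine ⟨ha.1, ha.2, ?_⟩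
      rcases R.vals y a (Ne.symm hay) with h | h | h
      · exact h
      · exfalso
        apply hcon
        refine ⟨a, fun z => ?_⟩
        apply R.eq4
        rw [R.symm a w, R.symm a v, R.symm a y, R.symm w y, R.symm v y]
        omega
      · exact absurd h (R.not_adj (y := w) (by rw [R.symm]; exact h1) ha.1)
  have := (Finset.card_le_card hsub).trans (Finset.card_union_le _ _)
  rw [Finset.card_singleton] at this
  omega

theorem common7 {y w : V} (h : g y w = 1) :
    ((univ.filter (fun a => g y a = 1 ∧ g w a = 1)).card : ℤ) = 7 := by
  have h1 := R.GS y w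
  have h2 : ∀ a ∈ univ.filter (fun a => g y a = 1), g a w
      = (if g w a = 1 then 1 else 0) + 2 * (if a = w then 1 else 0) := by
    intro a ha
    simp only [mem_filter, mem_univ, true_and] at ha
    by_cases e : a = w
    · subst e; rw [R.self]; norm_num
    · have h3 := R.not_adj h ha
      rw [R.symm a w]
      rcases R.vals w a (Ne.symm e) with h4 | h4 | h4
      · rw [h4]; simp [e]
      · rw [h4]; simp [e]
      · exact absurd h4 h3
  rw [Finset.sum_congr rfl h2, Finset.sum_add_distrib, Finset.sum_boole, Finset.filter_filter,
    ← Finset.mul_sum, Finset.sum_ite_eq', h] at h1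
  simp [h] at h1
  linarith

/-- in the common neighbourhood of an edge of `Γ`, the relation `= or g = 1` is transitive -/
theorem trans {y w u v x : V} (hyw : g y w = 1) (hyu : g y u = 1) (hwu : g w u = 1)
    (hyv : g y v = 1) (hwv : g w v = 1) (hyx : g y x = 1) (hwx : g w x = 1)
    (hxu : g x u = 1) (hxv : g x v = 1) (huv : u ≠ v) : g u v = 1 := by
  rcases R.vals u v huv with h | h | h
  · exact h
  · exfalso
    obtain ⟨r, hr⟩ := R.corner hyu hyv h
    obtain ⟨s, hs⟩ := R.corner hwu hwv h
    have c4 := R.common4 h
    have ey := R.self y
    have ew := R.self w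
    have eu := R.self u
    have ev := R.self v
    have r1 := hr y
    have r2 := hr w
    have r3 := hr u
    have r4 := hr v
    have s1 := hs y
    have s2 := hs w
    have s3 := hs u
    have s4 := hs v
    have q1 := R.symm u y
    have q2 := R.symm v y
    have q3 := R.symm u w
    have q4 := R.symm v w
    have q5 := R.symm u v
    have q6 := R.symm w y
    have q7 := R.symm x u
    have q8 := R.symm x v
    have q9 := R.symm r u
    have q10 := R.symm r v
    have q11 := R.symm s u
    have q12 := R.symm s v
    have q13 := R.symm x y
    have q14 := R.symm x w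
    have n1 : y ≠ w := by intro e; rw [e] at hyw; omega
    have n2 : y ≠ x := by intro e; rw [e] at hyx; rw [R.self] at hyx; omega
    have n3 : y ≠ r := by intro e; rw [← e] at r1; omega
    have n4 : y ≠ s := by intro e; rw [← e] at s1; omega
    have n5 : w ≠ x := by intro e; rw [e] at hwx; rw [R.self] at hwx; omega
    have n6 : w ≠ r := by intro e; rw [← e] at r2; omega
    have n7 : w ≠ s := by intro e; rw [← e] at s2; omega
    have n8 : x ≠ r := by intro e; rw [← e] at r1; omega
    have n9 : x ≠ s := by intro e; rw [← e] at s2; omega
    have n10 : r ≠ s := by intro e; rw [← e] at s1; omega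
    have hsub : ({y, w, x, r, s} : Finset V) ⊆ univ.filter (fun a => g u a = 1 ∧ g v a = 1) := by
      intro a ha
      simp only [mem_insert, mem_singleton] at ha
      simp only [mem_filter, mem_univ, true_and]
      rcases ha with rfl | rfl | rfl | rfl | rfl <;> constructor <;> omega
    have h5 : ({y, w, x, r, s} : Finset V).card = 5 := by
      rw [Finset.card_insert_of_notMem, Finset.card_insert_of_notMem,
        Finset.card_insert_of_notMem, Finset.card_pair n10]
      · simp [n8, n9]
      · simp [n5, n6, n7]
      · simp [n1, n2, n3, n4]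
    have := Finset.card_le_card hsub
    omega
  · exact absurd h (R.not_adj hyu hyv)

end RD

end Pool.Agent.helper3.K93
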