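import Pool.Agent.helper3.K93Clique

open Finset

namespace Pool.Agent.helper3.K93

namespace RD

variable {V : Type*} [Fintype V] [DecidableEq V] {g : V → V → ℤ} (R : RD V g)

include R

/-- number of `v` with `g y v = 1`, `g w v = 0` -/
theorem ten {y w : V} (h : g y w = 1) :
    ((univ.filter (fun a => g y a = 1 ∧ g w a = 0)).card : ℤ) = 10 := by
  have h1 := R.Gc y
  have h7 := R.common7 h
  have h2 : ∀ a ∈ univ.filter (fun a => g y a = 1), (1:ℤ)
      = (if g w a = 1 then 1 else 0) + (if g w a = 0 then 1 else 0) + (if a = w then 1 else 0) := by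
    intro a ha
    simp only [mem_filter, mem_univ, true_and] at ha
    by_cases e : a = w
    · subst e; rw [R.self]; norm_num
    · have h3 := R.not_adj h ha
      rcases R.vals w a (Ne.symm e) with h4 | h4 | h4
      · rw [h4]; simp [e]
      · rw [h4]; simp [e]
      · exact absurd h4 h3
  have h3 : ∑ a ∈ univ.filter (fun a => g y a = 1), (1:ℤ) = 18 := by
    rw [Finset.sum_const, nsmul_eq_mul, h1]; norm_num
  rw [Finset.sum_congr rfl h2, Finset.sum_add_distrib, Finset.sum_add_distrib, Finset.sum_boole,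
    Finset.filter_filter, Finset.sum_boole, Finset.filter_filter, Finset.sum_ite_eq', h7] at h3
  simp [h] at h3
  linarith

/-- the class sizes in the common neighbourhood add up to 29 -/
theorem sum29 {y w : V} (h : g y w = 1) :
    ∑ u ∈ univ.filter (fun a => g y a = 1 ∧ g w a = 1),
      (((univ.filter (fun a => g y a = 1 ∧ g w a = 1)).filter (fun v => v = u ∨ g u v = 1)).card : ℤ)
      = 29 := by
  set Z := univ.filter (fun a => g y a = 1 ∧ g w a = 1) with hZ
  set E := univ.filter (fun a => g y a = 1 ∧ g w a = 0) with hE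
  have hZc : (Z.card : ℤ) = 7 := R.common7 h
  have hEc : (E.card : ℤ) = 10 := R.ten h
  -- double count
  have hd := Finset.sum_card_bipartiteAbove_eq_sum_card_bipartiteBelow
    (s := Z) (t := E) (fun u v => g u v = 1)
  have hb : ∀ v ∈ E, (Finset.bipartiteBelow (fun u v => g u v = 1) Z v).card = 2 := by
    intro v hv
    simp only [hE, mem_filter, mem_univ, true_and] at hv
    have h3 := R.common3 h hv.1 hv.2
    have e1 : Finset.bipartiteBelow (fun u v => g u v = 1) Z v
        = univ.filter (fun a => g w a = 1 ∧ g v a = 1 ∧ g y a = 1) := by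
      ext a
      simp only [hZ, Finset.mem_bipartiteBelow, mem_filter, mem_univ, true_and]
      rw [R.symm a v]
      tauto
    rw [e1]; exact_mod_cast h3
  rw [Finset.sum_congr rfl hb, Finset.sum_const, smul_eq_mul] at hd
  have hEc' : E.card = 10 := by exact_mod_cast hEc
  rw [hEc'] at hd
  have hu : ∀ u ∈ Z, ((Z.filter (fun v => v = u ∨ g u v = 1)).card : ℤ)
      = 7 - ((Finset.bipartiteAbove (fun u v => g u v = 1) E u).card : ℤ) := by
    intro u hu
    simp only [hZ, mem_filter, mem_univ, true_and] at hu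
    have h7 := R.common7 hu.1
    have e0 : Finset.bipartiteAbove (fun u v => g u v = 1) E u
        = univ.filter (fun a => g y a = 1 ∧ g w a = 0 ∧ g u a = 1) := by
      ext a
      simp only [hE, Finset.mem_bipartiteAbove, mem_filter, mem_univ, true_and]
      tauto
    have e1 : univ.filter (fun a => g y a = 1 ∧ g u a = 1)
        = (univ.filter (fun a => g y a = 1 ∧ g w a = 0 ∧ g u a = 1) ∪
          univ.filter (fun a => g y a = 1 ∧ g w a = 1 ∧ g u a = 1)) ∪ {w} := by
      ext a
      simp only [mem_union, mem_filter, mem_univ, true_and, mem_singleton]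
      constructor
      · intro ha
        by_cases e : a = w
        · right; exact e
        · left
          rcases R.vals w a (Ne.symm e) with h4 | h4 | h4
          · right; exact ⟨ha.1, h4, ha.2⟩
          · left; exact ⟨ha.1, h4, ha.2⟩
          · exact absurd h4 (R.not_adj h ha.1)
      · rintro ((ha | ha) | ha)
        · exact ⟨ha.1, ha.2.2⟩
        · exact ⟨ha.1, ha.2.2⟩
        · subst ha; exact ⟨h, by rw [R.symm]; exact hu.2⟩
    have e2 : Z.filter (fun v => v = u ∨ g u v = 1)
        = univ.filter (fun a => g y a = 1 ∧ g w a = 1 ∧ g u a = 1) ∪ {u} := by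
      ext a
      simp only [hZ, mem_union, mem_filter, mem_univ, true_and, mem_singleton]
      constructor
      · rintro ⟨⟨h1, h2⟩, h3 | h3⟩
        · right; exact h3
        · left; exact ⟨h1, h2, h3⟩
      · rintro (h1 | h1)
        · exact ⟨⟨h1.1, h1.2.1⟩, Or.inr h1.2.2⟩
        · subst h1; exact ⟨hu, Or.inl rfl⟩
    rw [e1, Finset.card_union_of_disjoint, Finset.card_union_of_disjoint,
      Finset.card_singleton] at h7
    · rw [e2, e0, Finset.card_union_of_disjoint, Finset.card_singleton]
      · push_cast at h7 ⊢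
        linarith
      · rw [Finset.disjoint_singleton_right]
        simp only [mem_filter, mem_univ, true_and, not_and]
        intro _ _ h5
        rw [R.self] at h5; omega
    · rw [Finset.disjoint_left]
      intro a ha hb
      simp only [mem_filter, mem_univ, true_and] at ha hb
      omega
    · rw [Finset.disjoint_singleton_right]
      simp only [mem_union, mem_filter, mem_univ, true_and, R.self]
      omega
  rw [Finset.sum_congr rfl hu, Finset.sum_sub_distrib, Finset.sum_const, nsmul_eq_mul, hZc]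
  have hd' : ∑ u ∈ Z, ((Finset.bipartiteAbove (fun u v => g u v = 1) E u).card : ℤ) = 20 := by
    exact_mod_cast hd
  rw [hd']
  norm_num

/-- existence of the base configuration -/
theorem config {y w : V} (h : g y w = 1) :
    ∃ (a : Fin 5 → V) (p q : V), (∀ i, g y (a i) = 1 ∧ g w (a i) = 1) ∧
      (∀ i j, i ≠ j → g (a i) (a j) = 1) ∧ g y p = 1 ∧ g w p = 1 ∧ g y q = 1 ∧ g w q = 1 ∧
      g p q = 1 ∧ (∀ i, g (a i) p = 0 ∧ g (a i) q = 0) := by
  have h29 := R.sum29 h
  set Z := univ.filter (fun a => g y a = 1 ∧ g w a = 1) with hZ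
  have hZc : (Z.card : ℤ) = 7 := R.common7 h
  let cl : V → Finset V := fun u => Z.filter (fun v => v = u ∨ g u v = 1)
  have memZ : ∀ a, a ∈ Z ↔ g y a = 1 ∧ g w a = 1 := by intro a; simp [hZ]
  have memcl : ∀ u v, v ∈ cl u ↔ v ∈ Z ∧ (v = u ∨ g u v = 1) := by
    intro u v; simp [cl]
  have h29' : ∑ u ∈ Z, ((cl u).card : ℤ) = 29 := h29
  have tr : ∀ u v x, u ∈ Z → v ∈ Z → x ∈ Z → g x u = 1 → g x v = 1 → u ≠ v → g u v = 1 := by
    intro u v x hu hv hx h1 h2 h3
    rw [memZ] at hu hv hx
    exact R.trans h hu.1 hu.2 hv.1 hv.2 hx.1 hx.2 h1 h2 h3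
  have clsub : ∀ u, cl u ⊆ Z := fun u => Finset.filter_subset _ _
  -- classes
  have cleq : ∀ u v, u ∈ Z → v ∈ cl u → cl v = cl u := by
    intro u v hu hv
    rw [memcl] at hv
    ext x
    rw [memcl, memcl]
    constructor
    · rintro ⟨hx, h1⟩
      refine ⟨hx, ?_⟩
      by_cases hxu : x = u
      · left; exact hxu
      · right
        rcases hv.2 with e | e
        · subst e
          rcases h1 with h1 | h1
          · exact absurd h1 hxu
          · exact h1
        · rcases h1 with h1 | h1
          · subst h1; exact e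
          · exact tr u x v hu hx hv.1 (by rw [R.symm]; exact e) h1 (Ne.symm hxu)
    · rintro ⟨hx, h1⟩
      refine ⟨hx, ?_⟩
      by_cases hxv : x = v
      · left; exact hxv
      · right
        rcases hv.2 with e | e
        · subst e
          rcases h1 with h1 | h1
          · exact absurd h1 hxv
          · exact h1
        · rcases h1 with h1 | h1
          · subst h1; rw [R.symm]; exact e
          · exact tr v x u hv.1 hx hu e h1 (Ne.symm hxv)
  -- a class of size at least 5
  have hbig : ∃ u ∈ Z, 5 ≤ (cl u).card := by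
    by_contra hcon
    push Not at hcon
    have h1 : ∑ u ∈ Z, ((cl u).card : ℤ) ≤ ∑ u ∈ Z, 4 := by
      apply Finset.sum_le_sum
      intro u hu
      have := hcon u hu
      have : (cl u).card ≤ 4 := by omega
      exact_mod_cast this
    rw [h29', Finset.sum_const, nsmul_eq_mul, hZc] at h1
    omega
  obtain ⟨u, hu, hu5⟩ := hbig
  set C := cl u with hC
  have hCZ : C ⊆ Z := clsub u
  set Rm := Z \ C with hRm
  have hsplit : ∑ v ∈ Rm, ((cl v).card : ℤ) + ∑ v ∈ C, ((cl v).card : ℤ) = 29 := by
    rw [← h29', hRm]; exact Finset.sum_sdiff hCZ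
  have hCsum : ∑ v ∈ C, ((cl v).card : ℤ) = (C.card : ℤ) * C.card := by
    have : ∀ v ∈ C, ((cl v).card : ℤ) = C.card := by
      intro v hv; rw [cleq u v hu hv]
    rw [Finset.sum_congr rfl this, Finset.sum_const, nsmul_eq_mul]
  have hRnn : 0 ≤ ∑ v ∈ Rm, ((cl v).card : ℤ) := Finset.sum_nonneg fun v _ => by positivity
  have hC5 : C.card = 5 := by
    have h1 : (C.card : ℤ) * C.card ≤ 29 := by linarith
    have h2 : C.card < 6 := by
      by_contra hcon
      push Not at hcon
      have : (6:ℤ) ≤ C.card := by exact_mod_cast hcon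
      nlinarith
    omega
  have hRc : Rm.card = 2 := by
    have h1 := Finset.card_sdiff_add_card_eq_card hCZ
    rw [← hRm] at h1
    omega
  have hRsum : ∑ v ∈ Rm, ((cl v).card : ℤ) = 4 := by
    rw [hCsum, hC5] at hsplit
    push_cast at hsplit
    linarith
  obtain ⟨p, q, hpq, hRpq⟩ := Finset.card_eq_two.1 hRc
  have hpR : p ∈ Rm := by rw [hRpq]; simp
  have hqR : q ∈ Rm := by rw [hRpq]; simp
  have hpZ : p ∈ Z := (Finset.mem_sdiff.1 hpR).1
  have hqZ : q ∈ Z := (Finset.mem_sdiff.1 hqR).1
  have hpC : p ∉ C := (Finset.mem_sdiff.1 hpR).2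
  have hqC : q ∉ C := (Finset.mem_sdiff.1 hqR).2
  have hclR : ∀ v ∈ Rm, cl v ⊆ Rm := by
    intro v hv x hx
    rw [hRm, Finset.mem_sdiff] at hv ⊢
    refine ⟨clsub v hx, ?_⟩
    intro hxC
    have h1 := cleq v x hv.1 hx
    have h2 := cleq u x hu hxC
    apply hv.2
    rw [hC, ← h2, h1, memcl]
    exact ⟨hv.1, Or.inl rfl⟩
  have hgpq : g p q = 1 := by
    have hp2 := Finset.card_le_card (hclR p hpR)
    have hq2 := Finset.card_le_card (hclR q hqR)
    rw [hRc] at hp2 hq2
    rw [hRpq, Finset.sum_pair hpq] at hRsum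
    have hp2' : (cl p).card = 2 := by
      have : ((cl p).card : ℤ) + (cl q).card = 4 := hRsum
      have : (cl p).card + (cl q).card = 4 := by exact_mod_cast this
      omega
    have : cl p = Rm := Finset.eq_of_subset_of_card_le (hclR p hpR) (by rw [hp2', hRc])
    have hq : q ∈ cl p := by rw [this]; exact hqR
    rw [memcl] at hq
    rcases hq.2 with e | e
    · exact absurd e.symm hpq
    · exact e
  have nz : ∀ c ∈ C, ∀ r ∈ Rm, g c r = 0 := by
    intro c hc r hr
    have hcZ := hCZ hc
    have hr' := Finset.mem_sdiff.1 hr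
    have hne : c ≠ r := by intro e; exact hr'.2 (e ▸ hc)
    rcases R.vals c r hne with e | e | e
    · exfalso
      apply hr'.2
      have h1 := cleq u c hu hc
      rw [hC, ← h1, memcl]
      exact ⟨hr'.1, Or.inr e⟩
    · exact e
    · exact absurd e (R.not_adj ((memZ c).1 hcZ).1 ((memZ r).1 hr'.1).1)
  have e5 : Fintype.card C = Fintype.card (Fin 5) := by simp [hC5]
  let e : Fin 5 ≃ C := (Fintype.equivOfCardEq e5).symm
  refine ⟨fun i => (e i).1, p, q, ?_, ?_, ((memZ p).1 hpZ).1, ((memZ p).1 hpZ).2,
    ((memZ q).1 hqZ).1, ((memZ q).1 hqZ).2, hgpq, ?_⟩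
  · intro i
    exact (memZ _).1 (hCZ (e i).2)
  · intro i j hij
    have h1 : (e i).1 ≠ (e j).1 := by
      intro h2; exact hij (e.injective (Subtype.ext h2))
    have h2 := cleq u _ hu (e i).2
    have h3 : (e j).1 ∈ cl (e i).1 := by rw [h2]; exact (e j).2
    rw [memcl] at h3
    rcases h3.2 with h4 | h4
    · exact absurd h4.symm h1
    · exact h4
  · intro i
    exact ⟨nz _ (e i).2 p hpR, nz _ (e i).2 q hqR⟩

end RD

end Pool.Agent.helper3.K93
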