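import Pool.Agent.helper3.K93Local

open Finset

namespace Pool.Agent.helper3.K93

variable {V : Type*} [Fintype V] [DecidableEq V] {G : SimpleGraph V} [DecidableRel G.Adj]

/-- number of vertices with a given value of `m v ·` -/
def nk (G : SimpleGraph V) [DecidableRel G.Adj] (v : V) (k : ℤ) : ℤ :=
  ((Finset.univ.filter (fun w => mG G v w = k)).card : ℤ)

variable (D : Dat G) (htri : ∀ v w, G.Adj v w → ∃ u, G.Adj u v ∧ G.Adj u w)

omit [DecidableRel G.Adj] in
theorem nk_sum [DecidableRel G.Adj] (v : V) (k : ℤ) :
    ∑ w, (if mG G v w = k then (1:ℤ) else 0) = nk G v k := by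
  unfold nk
  rw [Finset.sum_boole]

include D htri

theorem nk12 (v : V) : nk G v 12 = 1 := by
  unfold nk
  have : (Finset.univ.filter (fun w => mG G v w = 12)) = {v} := by
    ext w
    simp only [Finset.mem_filter, Finset.mem_univ, true_and, Finset.mem_singleton]
    rw [m12_iff D htri]
    exact eq_comm
  rw [this]; simp

theorem nkm6 (v : V) : nk G v (-6) = 20 := by
  unfold nk
  have : (Finset.univ.filter (fun w => mG G v w = -6)) = G.neighborFinset v := by
    ext w
    simp only [Finset.mem_filter, Finset.mem_univ, true_and, SimpleGraph.mem_neighborFinset]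
    exact m6_iff D htri v w
  rw [this]; exact D.deg v

theorem eq1 (v : V) : 1 + 20 + nk G v (-4) + nk G v 0 + nk G v 2 + nk G v 4 + nk G v 6 = 84 := by
  have h : ∀ w, (1:ℤ) = (if mG G v w = 12 then (1:ℤ) else 0) + (if mG G v w = -6 then (1:ℤ) else 0)
      + (if mG G v w = -4 then (1:ℤ) else 0) + (if mG G v w = 0 then (1:ℤ) else 0)
      + (if mG G v w = 2 then (1:ℤ) else 0) + (if mG G v w = 4 then (1:ℤ) else 0)
      + (if mG G v w = 6 then (1:ℤ) else 0) := by
    intro w
    rcases range_all D htri v w with h | h | h | h | h | h | h <;> rw [h] <;> norm_num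
  have h1 : ∑ _w : V, (1:ℤ) = 84 := by
    rw [Finset.sum_const, Finset.card_univ, D.card]; norm_num
  rw [Finset.sum_congr rfl (fun w _ => h w)] at h1
  simp only [Finset.sum_add_distrib, nk_sum] at h1
  rw [nk12 D htri, nkm6 D htri] at h1
  exact h1

theorem eq2 (v : V) : 12 - 120 - 4 * nk G v (-4) + 2 * nk G v 2 + 4 * nk G v 4
    + 6 * nk G v 6 = 0 := by
  have h : ∀ w, mG G v w = 12 * (if mG G v w = 12 then (1:ℤ) else 0)
      + (-6) * (if mG G v w = -6 then (1:ℤ) else 0)
      + (-4) * (if mG G v w = -4 then (1:ℤ) else 0)
      + 2 * (if mG G v w = 2 then (1:ℤ) else 0) + 4 * (if mG G v w = 4 then (1:ℤ) else 0)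
      + 6 * (if mG G v w = 6 then (1:ℤ) else 0) := by
    intro w
    rcases range_all D htri v w with h | h | h | h | h | h | h <;> rw [h] <;> norm_num
  have h1 := D.sum0 v
  rw [Finset.sum_congr rfl (fun w _ => h w)] at h1
  simp only [Finset.sum_add_distrib, ← Finset.mul_sum, nk_sum] at h1
  rw [nk12 D htri, nkm6 D htri] at h1
  linarith

theorem eq3 (v : V) : 144 + 720 + 16 * nk G v (-4) + 4 * nk G v 2 + 16 * nk G v 4
    + 36 * nk G v 6 = 1512 := by
  have h : ∀ w, mG G v w * mG G w v = 144 * (if mG G v w = 12 then (1:ℤ) else 0)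
      + 36 * (if mG G v w = -6 then (1:ℤ) else 0)
      + 16 * (if mG G v w = -4 then (1:ℤ) else 0)
      + 4 * (if mG G v w = 2 then (1:ℤ) else 0) + 16 * (if mG G v w = 4 then (1:ℤ) else 0)
      + 36 * (if mG G v w = 6 then (1:ℤ) else 0) := by
    intro w
    rw [mG_symm G w v]
    rcases range_all D htri v w with h | h | h | h | h | h | h <;> rw [h] <;> norm_num
  have h1 := D.sq v v
  rw [Finset.sum_congr rfl (fun w _ => h w)] at h1
  simp only [Finset.sum_add_distrib, ← Finset.mul_sum, nk_sum] at h1
  rw [nk12 D htri, nkm6 D htri, m_self D] at h1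
  linarith

theorem card_common (v w : V) :
    (((G.neighborFinset w).filter (fun a => mG G v a = -6)).card : ℤ) = cN G v w := by
  unfold cN
  congr 2
  ext a
  simp only [Finset.mem_filter, Finset.mem_inter, SimpleGraph.mem_neighborFinset]
  rw [m6_iff D htri]
  exact and_comm

theorem eq4 (v : V) : 10 * nk G v 6 = 4 * nk G v 0 := by
  have h := Finset.sum_card_bipartiteAbove_eq_sum_card_bipartiteBelow
    (s := Finset.univ.filter (fun w => mG G v w = 6))
    (t := Finset.univ.filter (fun w => mG G v w = 0)) G.Adj
  have h1 : ∀ w ∈ Finset.univ.filter (fun w => mG G v w = 6),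
      (Finset.bipartiteAbove G.Adj (Finset.univ.filter (fun w => mG G v w = 0)) w).card = 10 := by
    intro w hw
    simp only [Finset.mem_filter, Finset.mem_univ, true_and] at hw
    have e1 : Finset.bipartiteAbove G.Adj (Finset.univ.filter (fun w => mG G v w = 0)) w
        = (G.neighborFinset w).filter (fun a => mG G v a = 0) := by
      ext a
      simp only [Finset.mem_bipartiteAbove, Finset.mem_filter, Finset.mem_univ, true_and,
        SimpleGraph.mem_neighborFinset]
      exact and_comm
    have hne : v ≠ w := by
      intro e; rw [e, m_self D] at hw; omega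
    have hna : ¬ G.Adj v w := by
      intro e; rw [m_adj D htri e] at hw; omega
    rw [e1, invol D htri v w 0, hw]
    have e2 := card_common D htri v w
    have e3 := m_nonadj hne hna
    norm_num
    omega
  have h2 : ∀ w ∈ Finset.univ.filter (fun w => mG G v w = 0),
      (Finset.bipartiteBelow G.Adj (Finset.univ.filter (fun w => mG G v w = 6)) w).card = 4 := by
    intro w hw
    simp only [Finset.mem_filter, Finset.mem_univ, true_and] at hw
    have e1 : Finset.bipartiteBelow G.Adj (Finset.univ.filter (fun w => mG G v w = 6)) w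
        = (G.neighborFinset w).filter (fun a => mG G v a = 6) := by
      ext a
      simp only [Finset.mem_bipartiteBelow, Finset.mem_filter, Finset.mem_univ, true_and,
        SimpleGraph.mem_neighborFinset]
      rw [G.adj_comm a w]
      exact and_comm
    have hne : v ≠ w := by
      intro e; rw [e, m_self D] at hw; omega
    have hna : ¬ G.Adj v w := by
      intro e; rw [m_adj D htri e] at hw; omega
    rw [e1, invol D htri v w 6, hw]
    have e2 := card_common D htri v w
    have e3 := m_nonadj hne hna
    norm_num
    omega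
  rw [Finset.sum_congr rfl h1, Finset.sum_congr rfl h2, Finset.sum_const, Finset.sum_const] at h
  unfold nk
  simp only [smul_eq_mul] at h
  have h' : (((Finset.univ.filter (fun w => mG G v w = 6)).card * 10 : ℕ) : ℤ)
      = (((Finset.univ.filter (fun w => mG G v w = 0)).card * 4 : ℕ) : ℤ) := by rw [h]
  push_cast at h'
  linarith

omit D htri in
theorem nk_nonneg (v : V) (k : ℤ) : 0 ≤ nk G v k := by unfold nk; positivity

theorem n6_cases (v : V) : nk G v 6 = 6 ∨ (nk G v 6 = 18 ∧ nk G v (-4) = 0 ∧ nk G v 2 = 0 ∧
    nk G v 4 = 0 ∧ nk G v 0 = 45) := by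
  have h1 := eq1 D htri v
  have h2 := eq2 D htri v
  have h3 := eq3 D htri v
  have h4 := eq4 D htri v
  have h5 : 0 ≤ nk G v (-4) := nk_nonneg v (-4)
  have h6 : 0 ≤ nk G v 0 := nk_nonneg v 0
  have h7 : 0 ≤ nk G v 2 := nk_nonneg v 2
  have h8 : 0 ≤ nk G v 4 := nk_nonneg v 4
  have h9 : 0 ≤ nk G v 6 := nk_nonneg v 6
  omega

/-- `T w y`: number of `a ~ y` with `m w a = 6` -/
def TT (G : SimpleGraph V) [DecidableRel G.Adj] (w y : V) : ℤ :=
  (((G.neighborFinset y).filter (fun a => mG G w a = 6)).card : ℤ)

theorem TT_eq0 {w y : V} (h : G.Adj y w) :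
    TT G w y = (((G.neighborFinset y).filter (fun a => mG G w a = 0)).card : ℤ) := by
  unfold TT
  rw [invol D htri w y 6, m_adj D htri h.symm]
  norm_num

theorem TT_third {w y : V} (h : G.Adj y w) : TT G (third G y w) y = TT G w y := by
  rw [TT_eq0 D htri (adj_third_left D htri h)]
  unfold TT
  congr 2
  ext a
  simp only [Finset.mem_filter, SimpleGraph.mem_neighborFinset]
  constructor
  · rintro ⟨h1, h2⟩
    refine ⟨h1, ?_⟩
    have h3 := line_sum D htri h a
    rw [m_adj D htri h1] at h3
    linarith
  · rintro ⟨h1, h2⟩
    refine ⟨h1, ?_⟩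
    have h3 := line_sum D htri h a
    rw [m_adj D htri h1] at h3
    linarith

theorem TT_le {w y : V} (h : G.Adj y w) : TT G w y ≤ 9 := by
  have h1 : ((G.neighborFinset y).filter (fun a => mG G w a = 6)) ∪
      ((G.neighborFinset y).filter (fun a => mG G w a = 0)) ∪ {w, third G y w} ⊆
      G.neighborFinset y := by
    apply Finset.union_subset
    · exact Finset.union_subset (Finset.filter_subset _ _) (Finset.filter_subset _ _)
    · intro a ha
      simp only [Finset.mem_insert, Finset.mem_singleton] at ha
      rw [SimpleGraph.mem_neighborFinset]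
      rcases ha with rfl | rfl
      · exact h
      · exact adj_third_left D htri h
  have h2 := Finset.card_le_card h1
  have hw : G.Adj w (third G y w) := adj_third_right D htri h
  rw [Finset.card_union_of_disjoint, Finset.card_union_of_disjoint, Finset.card_pair hw.ne] at h2
  · have h3 := D.deg y
    have h4 := TT_eq0 D htri h
    unfold TT at h4 ⊢
    omega
  · rw [Finset.disjoint_left]
    intro a ha hb
    simp only [Finset.mem_filter] at ha hb
    omega
  · rw [Finset.disjoint_left]
    intro a ha hb
    simp only [Finset.mem_insert, Finset.mem_singleton] at hb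
    simp only [Finset.mem_union, Finset.mem_filter] at ha
    rcases hb with rfl | rfl
    · rw [m_self D] at ha; omega
    · rw [m_adj D htri hw] at ha; omega

theorem n6_line {w y : V} (h : G.Adj w y) :
    nk G w 6 = TT G w y + TT G w (third G w y) := by
  have h1 : (Finset.univ.filter (fun z => mG G w z = 6))
      = ((G.neighborFinset y).filter (fun a => mG G w a = 6)) ∪
        ((G.neighborFinset (third G w y)).filter (fun a => mG G w a = 6)) := by
    ext z
    simp only [Finset.mem_filter, Finset.mem_univ, true_and, Finset.mem_union,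
      SimpleGraph.mem_neighborFinset]
    constructor
    · intro hz
      have h2 := line_sum D htri h z
      have h3 := range_all D htri y z
      have h4 := range_all D htri (third G w y) z
      rw [← m6_iff D htri, ← m6_iff D htri]
      omega
    · rintro (⟨_, h⟩ | ⟨_, h⟩) <;> exact h
  unfold nk TT
  rw [h1, Finset.card_union_of_disjoint]
  · push_cast; ring
  · rw [Finset.disjoint_left]
    intro z hz hz'
    simp only [Finset.mem_filter, SimpleGraph.mem_neighborFinset] at hz hz'
    have h2 := line_sum D htri h z
    rw [m_adj D htri hz.1, m_adj D htri hz'.1, hz.2] at h2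
    omega

/-- at a vertex of exceptional type, all `T` are 3 -/
theorem T3 {y w : V} (h : G.Adj y w) (h6 : nk G y 6 = 6) : TT G w y = 3 := by
  obtain ⟨b, hb⟩ : ∃ b, third G y w = b := ⟨_, rfl⟩
  have hyb : G.Adj y b := hb ▸ adj_third_left D htri h
  have hwb : G.Adj w b := hb ▸ adj_third_right D htri h
  have e1 : third G w y = b := by rw [← hb]; exact (third_comm D htri h.symm)
  have e2 : third G y b = w := by rw [← hb]; exact third_third D htri h
  have e3 : third G b y = w := by rw [third_comm D htri hyb.symm, e2]
  have e4 : third G w b = y := by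
    have := third_third D htri h.symm
    rw [e1] at this; exact this
  have e5 : third G b w = y := by rw [third_comm D htri hwb.symm, e4]
  have a1 : nk G y 6 = TT G y w + TT G y b := by
    have := n6_line D htri h
    rw [hb] at this; exact this
  have a2 : nk G w 6 = TT G w y + TT G w b := by
    have := n6_line D htri h.symm
    rw [e1] at this; exact this
  have a3 : nk G b 6 = TT G b y + TT G b w := by
    have := n6_line D htri hyb.symm
    rw [e3] at this; exact this
  have b1 : TT G b y = TT G w y := by
    have := TT_third D htri h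
    rw [hb] at this; exact this
  have b2 : TT G b w = TT G y w := by
    have := TT_third D htri h.symm
    rw [e1] at this; exact this
  have b3 : TT G w b = TT G y b := by
    have := TT_third D htri hyb.symm
    rw [e3] at this; exact this
  have c1 := TT_le D htri h
  have c2 := TT_le D htri h.symm
  have c3 : TT G w b ≤ 9 := TT_le D htri hwb.symm
  have d1 := n6_cases D htri w
  have d2 := n6_cases D htri b
  have t0 : 0 ≤ TT G y w := by unfold TT; positivity
  have t1 : 0 ≤ TT G y b := by unfold TT; positivity
  generalize TT G y w = x1 at *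
  generalize TT G y b = x2 at *
  generalize TT G w y = x3 at *
  generalize TT G w b = x4 at *
  generalize TT G b y = x5 at *
  generalize TT G b w = x6 at *
  omega

end Pool.Agent.helper3.K93
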