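import Pool.Agent.helper3.K93Root

open Finset

namespace Pool.Agent.helper3.K93

namespace RD

variable {V : Type*} [Fintype V] [DecidableEq V] {g : V → V → ℤ} (R : RD V g)

include R

theorem sqG {w z : V} (h : g w z = 1) :
    ∑ z' ∈ univ.filter (fun a => g w a = 1), (g z z') ^ 2 = 11 := by
  have h1 : ∀ z' ∈ univ.filter (fun a => g w a = 1), (g z z') ^ 2
      = g z' z + 2 * (if z' = z then 1 else 0) := by
    intro z' hz'
    simp only [mem_filter, mem_univ, true_and] at hz'
    by_cases e : z' = z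
    · subst e; rw [R.self]; norm_num
    · have h2 := R.vals z z' (Ne.symm e)
      have h3 := R.not_adj h hz'
      rw [R.symm z' z]
      rcases h2 with h2 | h2 | h2
      · rw [h2]; simp [e]
      · rw [h2]; simp [e]
      · exact absurd h2 h3
  rw [Finset.sum_congr rfl h1, Finset.sum_add_distrib, R.GS, h, ← Finset.mul_sum,
    Finset.sum_ite_eq']
  simp [h]

theorem sqGN {w z : V} (h : g w z = 1) :
    ∑ a ∈ univ.filter (fun a => g w a = -1), (g z a) ^ 2 = 10 := by
  have h1 : ∀ a ∈ univ.filter (fun a => g w a = -1), (g z a) ^ 2 = - g a z := by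
    intro a ha
    simp only [mem_filter, mem_univ, true_and] at ha
    have h2 := R.adj_val (y := z) (w := w) (by rw [R.symm]; exact h) ha
    rw [R.symm a z]
    rcases h2 with h2 | h2 <;> rw [h2] <;> norm_num
  rw [Finset.sum_congr rfl h1, Finset.sum_neg_distrib, R.NS, h]
  norm_num

theorem sqN {w z : V} (h : g w z = -1) :
    ∑ a ∈ univ.filter (fun a => g w a = -1), (g z a) ^ 2 = 14 := by
  have h1 : ∀ a ∈ univ.filter (fun a => g w a = -1), (g z a) ^ 2
      = g a z + 2 * (if a = z then 1 else 0) + 2 * (if g z a = -1 then 1 else 0) := by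
    intro a ha
    by_cases e : a = z
    · subst e; rw [R.self]; norm_num
    · have h2 := R.vals z a (Ne.symm e)
      rw [R.symm a z]
      rcases h2 with h2 | h2 | h2 <;> rw [h2] <;> simp [e]
  rw [Finset.sum_congr rfl h1, Finset.sum_add_distrib, Finset.sum_add_distrib, R.NS, h,
    ← Finset.mul_sum, ← Finset.mul_sum, Finset.sum_ite_eq', Finset.sum_boole, Finset.filter_filter,
    R.comA w z h]
  simp [h]

/-- Frobenius product of two rank-one sums -/
theorem frob (A B : Finset V) :
    ∑ p, ∑ q, (∑ z ∈ A, g z p * g z q) * (∑ b ∈ B, g b p * g b q)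
      = 441 * ∑ z ∈ A, ∑ b ∈ B, (g z b) ^ 2 := by
  have h1 : ∀ p q, (∑ z ∈ A, g z p * g z q) * (∑ b ∈ B, g b p * g b q)
      = ∑ z ∈ A, ∑ b ∈ B, (g z p * g b p) * (g z q * g b q) := by
    intro p q
    rw [Finset.sum_mul_sum]
    refine Finset.sum_congr rfl fun z _ => Finset.sum_congr rfl fun b _ => by ring
  simp only [h1]
  calc ∑ p, ∑ q, ∑ z ∈ A, ∑ b ∈ B, (g z p * g b p) * (g z q * g b q)
      = ∑ p, ∑ z ∈ A, ∑ q, ∑ b ∈ B, (g z p * g b p) * (g z q * g b q) :=
        Finset.sum_congr rfl fun p _ => Finset.sum_comm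
    _ = ∑ z ∈ A, ∑ p, ∑ q, ∑ b ∈ B, (g z p * g b p) * (g z q * g b q) := Finset.sum_comm
    _ = ∑ z ∈ A, ∑ p, ∑ b ∈ B, ∑ q, (g z p * g b p) * (g z q * g b q) :=
        Finset.sum_congr rfl fun z _ => Finset.sum_congr rfl fun p _ => Finset.sum_comm
    _ = ∑ z ∈ A, ∑ b ∈ B, ∑ p, ∑ q, (g z p * g b p) * (g z q * g b q) :=
        Finset.sum_congr rfl fun z _ => Finset.sum_comm
    _ = ∑ z ∈ A, ∑ b ∈ B, (21 * g z b) * (21 * g z b) := by
        refine Finset.sum_congr rfl fun z _ => Finset.sum_congr rfl fun b _ => ?_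
        rw [← R.S z b, Finset.sum_mul_sum]
    _ = 441 * ∑ z ∈ A, ∑ b ∈ B, (g z b) ^ 2 := by
        rw [Finset.mul_sum]
        refine Finset.sum_congr rfl fun z _ => ?_
        rw [Finset.mul_sum]
        refine Finset.sum_congr rfl fun b _ => by ring

theorem frobG (A : Finset V) :
    ∑ p, ∑ q, (∑ z ∈ A, g z p * g z q) * g p q = 882 * (A.card : ℤ) := by
  simp only [Finset.sum_mul]
  calc ∑ p, ∑ q, ∑ z ∈ A, g z p * g z q * g p q
      = ∑ p, ∑ z ∈ A, ∑ q, g z p * g z q * g p q :=
        Finset.sum_congr rfl fun p _ => Finset.sum_comm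
    _ = ∑ z ∈ A, ∑ p, ∑ q, g z p * g z q * g p q := Finset.sum_comm
    _ = ∑ z ∈ A, 882 := by
        refine Finset.sum_congr rfl fun z _ => ?_
        have h1 : ∀ p, ∑ q, g z p * g z q * g p q = 21 * (g z p * g z p) := by
          intro p
          have h2 : ∀ q, g z p * g z q * g p q = g z p * (g z q * g p q) := by intro q; ring
          simp only [h2, ← Finset.mul_sum, R.S]
          ring
        simp only [h1, ← Finset.mul_sum, R.S, R.self]
        norm_num
    _ = 882 * (A.card : ℤ) := by rw [Finset.sum_const, nsmul_eq_mul]; ring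

theorem frobGG : ∑ p, ∑ q, g p q * g p q = 3528 := by
  simp only [R.S, R.self]
  rw [Finset.sum_const, Finset.card_univ, R.card]; norm_num

/-- the second order identity at `w` -/
theorem tprime (w p q : V) :
    2 * ∑ z ∈ univ.filter (fun a => g w a = 1), g z p * g z q
      + ∑ a ∈ univ.filter (fun a => g w a = -1), g a p * g a q
      = 12 * g p q + 8 * (g w p * g w q) := by
  set A := univ.filter (fun a => g w a = 1) with hA
  set B := univ.filter (fun a => g w a = -1) with hB
  have hAc : (A.card : ℤ) = 18 := R.Gc w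
  have hBc : (B.card : ℤ) = 20 := R.Nc w
  let X1 : V → V → ℤ := fun p q => ∑ z ∈ A, g z p * g z q
  let X2 : V → V → ℤ := fun p q => ∑ z ∈ B, g z p * g z q
  let X4 : V → V → ℤ := fun p q => ∑ z ∈ ({w} : Finset V), g z p * g z q
  have e11 : ∑ p, ∑ q, X1 p q * X1 p q = 441 * 198 := by
    simp only [X1]
    rw [R.frob A A]
    have : ∀ z ∈ A, ∑ b ∈ A, (g z b) ^ 2 = 11 := by
      intro z hz
      exact R.sqG (by simpa [hA] using hz)
    rw [Finset.sum_congr rfl this, Finset.sum_const, nsmul_eq_mul, hAc]; norm_num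
  have e12 : ∑ p, ∑ q, X1 p q * X2 p q = 441 * 180 := by
    simp only [X1, X2]
    rw [R.frob A B]
    have : ∀ z ∈ A, ∑ b ∈ B, (g z b) ^ 2 = 10 := by
      intro z hz
      exact R.sqGN (by simpa [hA] using hz)
    rw [Finset.sum_congr rfl this, Finset.sum_const, nsmul_eq_mul, hAc]; norm_num
  have e22 : ∑ p, ∑ q, X2 p q * X2 p q = 441 * 280 := by
    simp only [X2]
    rw [R.frob B B]
    have : ∀ z ∈ B, ∑ b ∈ B, (g z b) ^ 2 = 14 := by
      intro z hz
      exact R.sqN (by simpa [hB] using hz)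
    rw [Finset.sum_congr rfl this, Finset.sum_const, nsmul_eq_mul, hBc]; norm_num
  have e14 : ∑ p, ∑ q, X1 p q * X4 p q = 441 * 18 := by
    simp only [X1, X4]
    rw [R.frob A {w}]
    have : ∀ z ∈ A, ∑ b ∈ ({w} : Finset V), (g z b) ^ 2 = 1 := by
      intro z hz
      have hz' : g w z = 1 := by simpa [hA] using hz
      rw [Finset.sum_singleton, R.symm, hz']; norm_num
    rw [Finset.sum_congr rfl this, Finset.sum_const, nsmul_eq_mul, hAc]; norm_num
  have e24 : ∑ p, ∑ q, X2 p q * X4 p q = 441 * 20 := by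
    simp only [X2, X4]
    rw [R.frob B {w}]
    have : ∀ z ∈ B, ∑ b ∈ ({w} : Finset V), (g z b) ^ 2 = 1 := by
      intro z hz
      have hz' : g w z = -1 := by simpa [hB] using hz
      rw [Finset.sum_singleton, R.symm, hz']; norm_num
    rw [Finset.sum_congr rfl this, Finset.sum_const, nsmul_eq_mul, hBc]; norm_num
  have e44 : ∑ p, ∑ q, X4 p q * X4 p q = 441 * 4 := by
    simp only [X4]
    rw [R.frob {w} {w}, Finset.sum_singleton, Finset.sum_singleton, R.self]; norm_num
  have e13 : ∑ p, ∑ q, X1 p q * g p q = 441 * 36 := by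
    simp only [X1]; rw [R.frobG, hAc]; norm_num
  have e23 : ∑ p, ∑ q, X2 p q * g p q = 441 * 40 := by
    simp only [X2]; rw [R.frobG, hBc]; norm_num
  have e43 : ∑ p, ∑ q, X4 p q * g p q = 441 * 2 := by
    simp only [X4]; rw [R.frobG, Finset.card_singleton]; norm_num
  have e33 := R.frobGG
  have key : ∑ p, ∑ q, (2 * X1 p q + X2 p q - 12 * g p q - 8 * X4 p q) ^ 2 = 0 := by
    have h1 : ∀ p q, (2 * X1 p q + X2 p q - 12 * g p q - 8 * X4 p q) ^ 2
        = 4 * (X1 p q * X1 p q) + X2 p q * X2 p q + 144 * (g p q * g p q)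
          + 64 * (X4 p q * X4 p q) + 4 * (X1 p q * X2 p q) - 48 * (X1 p q * g p q)
          - 32 * (X1 p q * X4 p q) - 24 * (X2 p q * g p q) - 16 * (X2 p q * X4 p q)
          + 192 * (X4 p q * g p q) := by
      intro p q; ring
    simp only [h1, Finset.sum_add_distrib, Finset.sum_sub_distrib, ← Finset.mul_sum]
    rw [e11, e12, e22, e14, e24, e44, e13, e23, e43, e33]
    norm_num
  have h2 := (Finset.sum_eq_zero_iff_of_nonneg
    (fun p _ => Finset.sum_nonneg (fun q _ => sq_nonneg _))).1 key p (Finset.mem_univ p)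
  have h3 := (Finset.sum_eq_zero_iff_of_nonneg (fun q _ => sq_nonneg _)).1 h2 q
    (Finset.mem_univ q)
  have h4 := pow_eq_zero_iff (two_ne_zero) |>.1 h3
  simp only [X1, X2, X4, Finset.sum_singleton] at h4
  linarith

/-- four common `Γ`-neighbours -/
theorem common4 {w v : V} (h : g w v = 0) :
    ((univ.filter (fun a => g w a = 1 ∧ g v a = 1)).card : ℤ) = 4 := by
  have hne : w ≠ v := by intro e; rw [e, R.self] at h; omega
  -- a ∈ N(v): values of g w a
  have h1 : ∑ a ∈ univ.filter (fun a => g v a = -1), g a w = 0 := by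
    rw [R.NS, R.symm v w, h]; norm_num
  have h2 : ∀ a ∈ univ.filter (fun a => g v a = -1), g a w
      = (if g w a = 1 then 1 else 0) - (if g w a = -1 then 1 else 0) := by
    intro a ha
    simp only [mem_filter, mem_univ, true_and] at ha
    have hne' : w ≠ a := by
      intro e; rw [← e, R.symm v w, h] at ha; omega
    rw [R.symm a w]
    rcases R.vals w a hne' with e | e | e <;> rw [e] <;> norm_num
  rw [Finset.sum_congr rfl h2, Finset.sum_sub_distrib, Finset.sum_boole, Finset.sum_boole,
    Finset.filter_filter, Finset.filter_filter] at h1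
  have h3 := R.com v w (Ne.symm hne) (by rw [R.symm, h]; norm_num)
  rw [R.symm v w, h] at h3
  -- x ∈ Γ(w): values of g v x
  have h4 : ∑ a ∈ univ.filter (fun a => g w a = 1), g a v = 0 := by
    rw [R.GS, h]; norm_num
  have h5 : ∀ a ∈ univ.filter (fun a => g w a = 1), g a v
      = (if g v a = 1 then 1 else 0) - (if g v a = -1 then 1 else 0) := by
    intro a ha
    simp only [mem_filter, mem_univ, true_and] at ha
    have hne' : v ≠ a := by
      intro e; rw [← e, h] at ha; omega
    rw [R.symm a v]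
    rcases R.vals v a hne' with e | e | e <;> rw [e] <;> norm_num
  rw [Finset.sum_congr rfl h5, Finset.sum_sub_distrib, Finset.sum_boole, Finset.sum_boole,
    Finset.filter_filter, Finset.filter_filter] at h4
  have h6 : (univ.filter (fun a => g w a = 1 ∧ g v a = -1))
      = (univ.filter (fun a => g v a = -1 ∧ g w a = 1)) := by
    ext a; simp [and_comm]
  rw [h6] at h4
  omega

end RD

end Pool.Agent.helper3.K93
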