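import Pool.Agent.helper3.K93Spec

open Matrix Finset

namespace Pool.Agent.helper3.K93

variable {V : Type*} [Fintype V] [DecidableEq V] (G : SimpleGraph V) [DecidableRel G.Adj]

/-- number of common neighbours -/
def cN (v w : V) : ℤ := ((G.neighborFinset v ∩ G.neighborFinset w).card : ℤ)

/-- the integral Gram matrix `A^2 - 3A - 4 - 4J` -/
def mG (v w : V) : ℤ :=
  cN G v w - 3 * (if G.Adj v w then 1 else 0) - 4 * (if v = w then 1 else 0) - 4

/-- what is used about a graph cospectral with `K(9,3)` -/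
structure Dat : Prop where
  card : Fintype.card V = 84
  deg : ∀ v, ((G.neighborFinset v).card : ℤ) = 20
  sum0 : ∀ v, ∑ w, mG G v w = 0
  sumA : ∀ v w, ∑ u ∈ G.neighborFinset v, mG G u w = -10 * mG G v w
  sq : ∀ v w, ∑ z, mG G v z * mG G z w = 126 * mG G v w
  tri : ∀ v, ∑ w ∈ G.neighborFinset v, cN G v w = 20

theorem mG_symm (v w : V) : mG G v w = mG G w v := by
  unfold mG cN
  rw [Finset.inter_comm]
  have h1 : G.Adj v w ↔ G.Adj w v := G.adj_comm v w
  have h2 : v = w ↔ w = v := eq_comm
  simp only [h1, h2]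

theorem AA_apply (v w : V) : ((G.adjMatrix ℝ) * (G.adjMatrix ℝ)) v w = (cN G v w : ℝ) := by
  rw [SimpleGraph.adjMatrix_mul_apply]
  simp only [SimpleGraph.adjMatrix_apply, Finset.sum_boole]
  unfold cN
  push_cast
  congr 2
  ext u
  simp only [Finset.mem_filter, Finset.mem_inter, SimpleGraph.mem_neighborFinset]
  rw [G.adj_comm u w]

theorem dat (hc : (G.adjMatrix ℝ).charpoly = (kneser93.adjMatrix ℝ).charpoly) : Dat G := by
  obtain ⟨hcard, hAJ, hcub⟩ := spec G hc
  set A := G.adjMatrix ℝ with hA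
  have hAs : Aᵀ = A := G.isSymm_adjMatrix
  set M : Matrix V V ℝ := A * A - (3:ℝ) • A - (4:ℝ) • (1 : Matrix V V ℝ) - (4:ℝ) • JM V with hM
  have hMm : ∀ v w, M v w = (mG G v w : ℝ) := by
    intro v w
    rw [hM]
    simp only [Matrix.sub_apply, Matrix.smul_apply, smul_eq_mul, JM_apply, mul_one,
      Matrix.one_apply]
    rw [hA, AA_apply, SimpleGraph.adjMatrix_apply]
    unfold mG
    push_cast
    ring
  have hJJ : JM V * JM V = (84:ℝ) • JM V := by
    ext i j
    rw [Matrix.mul_apply]
    simp [hcard]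
  have hMJ : M * JM V = 0 := by
    rw [hM]
    simp only [Matrix.sub_mul, Matrix.smul_mul, Matrix.mul_assoc, hAJ, Matrix.mul_smul,
      Matrix.one_mul, smul_smul, hJJ]
    module
  have hMs : Mᵀ = M := by
    rw [hM]
    simp only [Matrix.transpose_sub, Matrix.transpose_smul, Matrix.transpose_mul, hAs,
      Matrix.transpose_one]
    rfl
  have hJM : JM V * M = 0 := by
    have h1 : (M * JM V)ᵀ = 0 := by rw [hMJ, Matrix.transpose_zero]
    rw [Matrix.transpose_mul, hMs] at h1
    exact h1
  have hAM : A * M = (-10:ℝ) • M := by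
    have h1 : A * A * A = (120:ℝ) • JM V - (7:ℝ) • (A * A) + (34:ℝ) • A
        + (40:ℝ) • (1 : Matrix V V ℝ) := by
      rw [← hcub]; module
    rw [hM]
    simp only [Matrix.mul_sub, Matrix.mul_smul, Matrix.mul_one, hAJ, ← Matrix.mul_assoc]
    rw [h1]
    module
  have hMM : M * M = (126:ℝ) • M := by
    have h2 : M * M = A * (A * M) - (3:ℝ) • (A * M) - (4:ℝ) • M - (4:ℝ) • (JM V * M) := by
      conv_lhs => arg 1; rw [hM]
      simp only [Matrix.sub_mul, Matrix.smul_mul, Matrix.one_mul, Matrix.mul_assoc]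
    rw [h2, hAM, hJM, Matrix.mul_smul, hAM]
    module
  have hrow : ∀ v, ((G.neighborFinset v).card : ℝ) = 20 := by
    intro v
    have h1 := congrFun (congrFun hAJ v) v
    rw [hA, SimpleGraph.adjMatrix_mul_apply] at h1
    simpa using h1
  refine ⟨hcard, ?_, ?_, ?_, ?_, ?_⟩
  · intro v; exact_mod_cast hrow v
  · intro v
    have h1 := congrFun (congrFun hMJ v) v
    rw [Matrix.mul_apply] at h1
    simp only [JM_apply, mul_one, hMm, Matrix.zero_apply] at h1
    exact_mod_cast h1
  · intro v w
    have h1 := congrFun (congrFun hAM v) w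
    rw [hA, SimpleGraph.adjMatrix_mul_apply] at h1
    simp only [hMm, Matrix.smul_apply, smul_eq_mul] at h1
    exact_mod_cast h1
  · intro v w
    have h1 := congrFun (congrFun hMM v) w
    rw [Matrix.mul_apply] at h1
    simp only [hMm, Matrix.smul_apply, smul_eq_mul] at h1
    exact_mod_cast h1
  · intro v
    have h1 := congrFun (congrFun hcub v) v
    rw [Matrix.mul_assoc] at h1
    simp only [Matrix.sub_apply, Matrix.add_apply, Matrix.smul_apply, smul_eq_mul, JM_apply,
      mul_one, Matrix.one_apply_eq] at h1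
    rw [AA_apply] at h1
    rw [hA, SimpleGraph.adjMatrix_mul_apply] at h1
    simp only [AA_apply, SimpleGraph.adjMatrix_apply, SimpleGraph.irrefl, if_false, mul_zero] at h1
    have h2 : (cN G v v : ℝ) = 20 := by
      unfold cN
      rw [Finset.inter_self]
      push_cast
      exact hrow v
    rw [h2] at h1
    have h3 : (∑ x ∈ G.neighborFinset v, (cN G x v : ℝ)) = 20 := by linarith
    have h4 : ∀ x, cN G x v = cN G v x := by
      intro x; unfold cN; rw [Finset.inter_comm]
    simp only [h4] at h3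
    exact_mod_cast h3

end Pool.Agent.helper3.K93
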