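import Pool.Agent.helper3.K93Config

open Finset

namespace Pool.Agent.helper3.K93

/-- the base triples -/
def TB : Fin 9 → Finset (Fin 9) :=
  ![{0,1,2},{0,1,3},{0,1,4},{0,1,5},{0,1,6},{0,1,7},{0,1,8},{0,2,3},{1,2,3}]

/-- indicator -/
def ind (T : Finset (Fin 9)) (i : Fin 9) : ℤ := if i ∈ T then 1 else 0

/-- the Gram matrix of the base -/
def NB : Fin 9 → Fin 9 → ℤ :=
  ![![2,1,1,1,1,1,1,1,1],
    ![1,2,1,1,1,1,1,1,1],
    ![1,1,2,1,1,1,1,0,0],
    ![1,1,1,2,1,1,1,0,0],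
    ![1,1,1,1,2,1,1,0,0],
    ![1,1,1,1,1,2,1,0,0],
    ![1,1,1,1,1,1,2,0,0],
    ![1,1,0,0,0,0,0,2,1],
    ![1,1,0,0,0,0,0,1,2]]

/-- coefficients of the coordinate functionals -/
def dc : Fin 9 → Fin 9 → ℤ :=
  ![![0,1,0,0,0,0,0,0,-1],
    ![0,1,0,0,0,0,0,-1,0],
    ![0,0,0,0,0,0,0,0,0],
    ![-1,1,0,0,0,0,0,0,0],
    ![-1,0,1,0,0,0,0,0,0],
    ![-1,0,0,1,0,0,0,0,0],
    ![-1,0,0,0,1,0,0,0,0],
    ![-1,0,0,0,0,1,0,0,0],
    ![-1,0,0,0,0,0,1,0,0]]

def kc : Fin 9 → ℤ := ![1,-2,0,0,0,0,0,1,1]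

theorem dec1 : ∀ b, ∑ i, ind (TB b) i = 3 := by decide

theorem dec2 : ∀ b c, kc c + ∑ i, ind (TB b) i * dc i c = if c = b then 1 else 0 := by decide

theorem dec3 : ∀ b i, ∑ c, dc i c * NB c b = ind (TB b) i - ind (TB b) 2 := by decide

theorem dec4 : ∀ b, ∑ c, kc c * NB c b = 3 * ind (TB b) 2 - 1 := by decide

namespace RD

variable {V : Type*} [Fintype V] [DecidableEq V] {g : V → V → ℤ} (R : RD V g)

/-- the base vertices -/
def Bv (y w : V) (a : Fin 5 → V) (p q : V) : Fin 9 → V :=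
  ![y, w, a 0, a 1, a 2, a 3, a 4, p, q]

include R in
theorem Bv_gram {y w : V} {a : Fin 5 → V} {p q : V} (hyw : g y w = 1)
    (ha : ∀ i, g y (a i) = 1 ∧ g w (a i) = 1) (haa : ∀ i j, i ≠ j → g (a i) (a j) = 1)
    (hyp : g y p = 1) (hwp : g w p = 1) (hyq : g y q = 1) (hwq : g w q = 1) (hpq : g p q = 1)
    (hap : ∀ i, g (a i) p = 0 ∧ g (a i) q = 0) :
    ∀ i j, g (Bv y w a p q i) (Bv y w a p q j) = NB i j := by
  have hya : ∀ i, g y (a i) = 1 := fun i => (ha i).1
  have hwa : ∀ i, g w (a i) = 1 := fun i => (ha i).2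
  have hay : ∀ i, g (a i) y = 1 := fun i => by rw [R.symm]; exact hya i
  have haw : ∀ i, g (a i) w = 1 := fun i => by rw [R.symm]; exact hwa i
  have hap' : ∀ i, g (a i) p = 0 := fun i => (hap i).1
  have haq' : ∀ i, g (a i) q = 0 := fun i => (hap i).2
  have hpa : ∀ i, g p (a i) = 0 := fun i => by rw [R.symm]; exact hap' i
  have hqa : ∀ i, g q (a i) = 0 := fun i => by rw [R.symm]; exact haq' i
  have hwy : g w y = 1 := by rw [R.symm]; exact hyw
  have hpy : g p y = 1 := by rw [R.symm]; exact hyp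
  have hpw : g p w = 1 := by rw [R.symm]; exact hwp
  have hqy : g q y = 1 := by rw [R.symm]; exact hyq
  have hqw : g q w = 1 := by rw [R.symm]; exact hwq
  have hqp : g q p = 1 := by rw [R.symm]; exact hpq
  have hs := R.self
  have haa' : ∀ i j, g (a i) (a j) = if i = j then 2 else 1 := by
    intro i j
    split_ifs with h
    · rw [h, R.self]
    · exact haa i j h
  intro i j
  fin_cases i <;> fin_cases j <;>
    simp [Bv, NB, hyw, hya, hwa, hay, haw, hap', haq', hpa, hqa, hwy, hpy, hpw, hqy, hqw, hqp, hs,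
      haa', hyp, hwp, hyq, hwq, hpq]

end RD

section

variable {V : Type*} [Fintype V] [DecidableEq V] (g : V → V → ℤ) (B : Fin 9 → V)

/-- coordinate functionals -/
def del (z : V) (i : Fin 9) : ℤ := ∑ b, dc i b * g (B b) z

def kap (z : V) : ℤ := ∑ b, kc b * g (B b) z

/-- `v` is the vertex with coordinates `T` -/
structure Good (T : Finset (Fin 9)) (v : V) : Prop where
  card : ∑ i, ind T i = 3
  rep : ∀ z, g v z = kap g B z + ∑ i, ind T i * del g B z i
  del : ∀ i, del g B v i = ind T i - ind T 2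
  kap : kap g B v = 3 * ind T 2 - 1

end

namespace RD

variable {V : Type*} [Fintype V] [DecidableEq V] {g : V → V → ℤ} (R : RD V g)
  {B : Fin 9 → V} (hB : ∀ i j, g (B i) (B j) = NB i j)

omit [Fintype V] [DecidableEq V] in
include hB in
theorem good_base (b : Fin 9) : Good g B (TB b) (B b) where
  card := dec1 b
  rep := by
    intro z
    unfold kap del
    have h1 : ∑ i, ind (TB b) i * ∑ c, dc i c * g (B c) z
        = ∑ c, (∑ i, ind (TB b) i * dc i c) * g (B c) z := by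
      simp only [Finset.mul_sum, Finset.sum_mul]
      rw [Finset.sum_comm]
      refine Finset.sum_congr rfl fun c _ => Finset.sum_congr rfl fun i _ => by ring
    rw [h1, ← Finset.sum_add_distrib]
    have h2 : ∀ c, kc c * g (B c) z + (∑ i, ind (TB b) i * dc i c) * g (B c) z
        = (if c = b then 1 else 0) * g (B c) z := by
      intro c
      rw [← dec2 b c]; ring
    rw [Finset.sum_congr rfl (fun c _ => h2 c)]
    simp
  del := by
    intro i
    unfold del
    rw [← dec3 b i]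
    exact Finset.sum_congr rfl fun c _ => by rw [hB]
  kap := by
    unfold kap
    rw [← dec4 b]
    exact Finset.sum_congr rfl fun c _ => by rw [hB]

omit [Fintype V] [DecidableEq V] in
theorem good_dot {T T' : Finset (Fin 9)} {v v' : V} (h : Good g B T v) (h' : Good g B T' v') :
    g v v' = (∑ i, ind T i * ind T' i) - 1 := by
  rw [h.rep, h'.kap]
  have h1 : ∀ i, ind T i * del g B v' i = ind T i * ind T' i - ind T' 2 * ind T i := by
    intro i; rw [h'.del i]; ring
  rw [Finset.sum_congr rfl (fun i _ => h1 i), Finset.sum_sub_distrib, ← Finset.mul_sum, h.card]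
  ring

include R

theorem good_step {T0 T1 T2 T3 : Finset (Fin 9)} (h0 : ∃ v, Good g B T0 v)
    (h1 : ∃ v, Good g B T1 v) (h2 : ∃ v, Good g B T2 v)
    (d1 : ∑ i, ind T0 i * ind T1 i = 2) (d2 : ∑ i, ind T0 i * ind T2 i = 2)
    (d3 : ∑ i, ind T1 i * ind T2 i = 1) (d : ∀ i, ind T3 i = ind T1 i + ind T2 i - ind T0 i) :
    ∃ v, Good g B T3 v := by
  obtain ⟨v0, h0⟩ := h0
  obtain ⟨v1, h1⟩ := h1
  obtain ⟨v2, h2⟩ := h2
  have e1 := good_dot h0 h1
  have e2 := good_dot h0 h2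
  have e3 := good_dot h1 h2
  rw [d1] at e1
  rw [d2] at e2
  rw [d3] at e3
  obtain ⟨u, hu⟩ := R.corner (y := v0) (w := v1) (v := v2) (by omega) (by omega) (by omega)
  have hdel : ∀ i, del g B u i = del g B v1 i + del g B v2 i - del g B v0 i := by
    intro i
    unfold del
    rw [← Finset.sum_add_distrib, ← Finset.sum_sub_distrib]
    refine Finset.sum_congr rfl fun b _ => ?_
    rw [R.symm (B b) u, hu, R.symm (B b) v1, R.symm (B b) v2, R.symm (B b) v0]; ring
  have hkap : kap g B u = kap g B v1 + kap g B v2 - kap g B v0 := by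
    unfold kap
    rw [← Finset.sum_add_distrib, ← Finset.sum_sub_distrib]
    refine Finset.sum_congr rfl fun b _ => ?_
    rw [R.symm (B b) u, hu, R.symm (B b) v1, R.symm (B b) v2, R.symm (B b) v0]; ring
  refine ⟨u, ?_, ?_, ?_, ?_⟩
  · simp only [d, Finset.sum_add_distrib, Finset.sum_sub_distrib, h0.card, h1.card, h2.card]
    norm_num
  · intro z
    rw [hu, h1.rep, h2.rep, h0.rep]
    have : ∀ i, ind T3 i * del g B z i = ind T1 i * del g B z i + ind T2 i * del g B z i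
        - ind T0 i * del g B z i := by intro i; rw [d i]; ring
    rw [Finset.sum_congr rfl (fun i _ => this i), Finset.sum_sub_distrib, Finset.sum_add_distrib]
    ring
  · intro i
    rw [hdel, h1.del, h2.del, h0.del, d i, d 2]; ring
  · rw [hkap, h1.kap, h2.kap, h0.kap, d 2]; ring

end RD

/-- the closure computation -/
theorem closure (P : Finset (Fin 9) → Prop) (hb : ∀ b, P (TB b))
    (hs : ∀ T0 T1 T2 T3 : Finset (Fin 9), P T0 → P T1 → P T2 →
      (∑ i, ind T0 i * ind T1 i = 2) → (∑ i, ind T0 i * ind T2 i = 2) →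
      (∑ i, ind T1 i * ind T2 i = 1) → (∀ i, ind T3 i = ind T1 i + ind T2 i - ind T0 i) → P T3) :
    ∀ T : Finset (Fin 9), T.card = 3 → P T := by
  have b012 : P {0,1,2} := hb 0
  have b023 : P {0,2,3} := hb 7
  have b123 : P {1,2,3} := hb 8
  have b013 : P {0,1,3} := hb 1
  have h01 : ∀ k : Fin 9, 2 ≤ k → P {0,1,k} := by
    intro k hk
    fin_cases k
    · exact absurd hk (by decide)
    · exact absurd hk (by decide)
    · exact hb 0
    · exact hb 1
    · exact hb 2
    · exact hb 3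
    · exact hb 4
    · exact hb 5
    · exact hb 6
  have h02 : ∀ k : Fin 9, 3 ≤ k → P {0,2,k} := by
    intro k hk
    by_cases h3 : k = 3
    · subst h3; exact b023
    · refine hs {0,1,3} {0,1,k} {0,2,3} {0,2,k} b013 (h01 k (le_trans (by decide) hk)) b023 ?_ ?_ ?_ ?_
      all_goals (clear * - hk h3; revert k; decide)
  have h12 : ∀ k : Fin 9, 3 ≤ k → P {1,2,k} := by
    intro k hk
    by_cases h3 : k = 3
    · subst h3; exact b123
    · refine hs {0,1,3} {0,1,k} {1,2,3} {1,2,k} b013 (h01 k (le_trans (by decide) hk)) b123 ?_ ?_ ?_ ?_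
      all_goals (clear * - hk h3; revert k; decide)
  have h0 : ∀ a b : Fin 9, 3 ≤ a → 3 ≤ b → a ≠ b → P {0,a,b} := by
    intro a b ha hb' hab
    refine hs {0,1,2} {0,1,a} {0,2,b} {0,a,b} b012 (h01 a (le_trans (by decide) ha)) (h02 b hb') ?_ ?_ ?_ ?_
    all_goals (clear * - ha hb' hab; revert a b; decide)
  have h1 : ∀ a b : Fin 9, 3 ≤ a → 3 ≤ b → a ≠ b → P {1,a,b} := by
    intro a b ha hb' hab
    refine hs {0,1,2} {0,1,a} {1,2,b} {1,a,b} b012 (h01 a (le_trans (by decide) ha)) (h12 b hb') ?_ ?_ ?_ ?_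
    all_goals (clear * - ha hb' hab; revert a b; decide)
  have h2 : ∀ a b : Fin 9, 3 ≤ a → 3 ≤ b → a ≠ b → P {2,a,b} := by
    intro a b ha hb' hab
    refine hs {0,1,2} {0,2,a} {1,2,b} {2,a,b} b012 (h02 a ha) (h12 b hb') ?_ ?_ ?_ ?_
    all_goals (clear * - ha hb' hab; revert a b; decide)
  have h3 : ∀ a b c : Fin 9, 3 ≤ a → 3 ≤ b → 3 ≤ c → a ≠ b → a ≠ c → b ≠ c → P {a,b,c} := by
    intro a b c ha hb' hc hab hac hbc
    refine hs {0,1,a} {0,a,b} {1,a,c} {a,b,c} (h01 a (le_trans (by decide) ha)) (h0 a b ha hb' hab)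
      (h1 a c ha hc hac) ?_ ?_ ?_ ?_
    all_goals (clear * - ha hb' hc hab hac hbc; revert a b c; decide +kernel)
  -- one small element
  have s1 : ∀ x a b : Fin 9, x < 3 → 3 ≤ a → 3 ≤ b → a ≠ b → P {x,a,b} := by
    intro x a b hx ha hb' hab
    have : x = 0 ∨ x = 1 ∨ x = 2 := by revert x; decide
    rcases this with rfl | rfl | rfl
    · exact h0 a b ha hb' hab
    · exact h1 a b ha hb' hab
    · exact h2 a b ha hb' hab
  -- two small elements
  have s2 : ∀ x y a : Fin 9, x < 3 → y < 3 → x ≠ y → 3 ≤ a → P {x,y,a} := by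
    intro x y a hx hy hxy ha
    have e : (x = 0 ∧ y = 1) ∨ (x = 0 ∧ y = 2) ∨ (x = 1 ∧ y = 2) ∨ (x = 1 ∧ y = 0) ∨
        (x = 2 ∧ y = 0) ∨ (x = 2 ∧ y = 1) := by
      clear * - hx hy hxy
      revert x y; decide
    rcases e with ⟨rfl, rfl⟩ | ⟨rfl, rfl⟩ | ⟨rfl, rfl⟩ | ⟨rfl, rfl⟩ | ⟨rfl, rfl⟩ | ⟨rfl, rfl⟩
    · exact h01 a (le_trans (by decide) ha)
    · exact h02 a ha
    · exact h12 a ha
    · rw [Finset.insert_comm]; exact h01 a (le_trans (by decide) ha)
    · rw [Finset.insert_comm]; exact h02 a ha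
    · rw [Finset.insert_comm]; exact h12 a ha
  intro T hT
  obtain ⟨x, y, z, hxy, hxz, hyz, rfl⟩ := Finset.card_eq_three.1 hT
  have swap1 : ∀ x y z : Fin 9, ({x,y,z} : Finset (Fin 9)) = {y,x,z} := by
    intro x y z; exact Finset.insert_comm _ _ _
  have swap2 : ∀ x y z : Fin 9, ({x,y,z} : Finset (Fin 9)) = {x,z,y} := by
    intro x y z
    rw [Finset.pair_comm y z]
  rcases lt_or_ge x 3 with hx | hx <;> rcases lt_or_ge y 3 with hy | hy <;>
    rcases lt_or_ge z 3 with hz | hz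
  · have : ({x,y,z} : Finset (Fin 9)) = {0,1,2} := by
      clear * - hx hy hz hxy hxz hyz
      revert x y z; decide +kernel
    rw [this]; exact b012
  · exact s2 x y z hx hy hxy hz
  · rw [swap2]; exact s2 x z y hx hz hxz hy
  · exact s1 x y z hx hy hz hyz
  · rw [swap1, swap2]; exact s2 y z x hy hz hyz hx
  · rw [swap1]; exact s1 y x z hy hx hz hxz
  · rw [swap2, swap1]; exact s1 z x y hz hx hy hxy
  · exact h3 x y z hx hy hz hxy hxz hyz

end Pool.Agent.helper3.K93
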