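import Pool.Agent.helper3.K93Base

open Matrix Finset

namespace Pool.Agent.helper3.K93

/-- adjacency matrix of `K(9,3)` -/
noncomputable abbrev KM : Matrix Tri Tri ℝ := kneser93.adjMatrix ℝ

/-- the all-ones matrix -/
def JM (n : Type*) : Matrix n n ℝ := Matrix.of fun _ _ => 1

@[simp] theorem JM_apply {n : Type*} (i j : n) : JM n i j = 1 := rfl

/-- the matrix of intersection sizes -/
def IM : Matrix Tri Tri ℝ := Matrix.of fun s t => ((s.1 ∩ t.1).card : ℝ)

@[simp] theorem IM_apply (s t : Tri) : IM s t = ((s.1 ∩ t.1).card : ℝ) := rfl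

theorem KM_apply (s t : Tri) : KM s t = if Disjoint s.1 t.1 then 1 else 0 := by
  simp [KM, SimpleGraph.adjMatrix_apply, kneser93_adj]

theorem card_union' (s t : Tri) : (s.1 ∪ t.1).card + (s.1 ∩ t.1).card = 6 := by
  rw [Finset.card_union_add_card_inter, s.2, t.2]

theorem inter_le (s t : Tri) : (s.1 ∩ t.1).card ≤ 3 := by
  calc _ ≤ s.1.card := Finset.card_le_card Finset.inter_subset_left
    _ = 3 := s.2

theorem sub_compl_iff (u F : Finset (Fin 9)) : Disjoint F u ↔ u ⊆ Fᶜ := by
  rw [Finset.subset_compl_iff_disjoint_right, disjoint_comm]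

theorem KK (s t : Tri) : (KM * KM) s t = ((3 + (s.1 ∩ t.1).card).choose 3 : ℕ) := by
  rw [Matrix.mul_apply]
  have h1 : ∀ u : Tri, KM s u * KM u t = if u.1 ⊆ (s.1 ∪ t.1)ᶜ then 1 else 0 := by
    intro u
    simp only [KM_apply, ← sub_compl_iff, Finset.disjoint_union_left]
    have h3 : Disjoint u.1 t.1 ↔ Disjoint t.1 u.1 := disjoint_comm
    by_cases h1 : Disjoint s.1 u.1 <;> by_cases h2 : Disjoint t.1 u.1 <;>
      simp [h1, h2, h3]
  rw [Finset.sum_congr rfl (fun u _ => h1 u)]
  rw [Finset.sum_ite]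
  simp only [Finset.sum_const, smul_zero, add_zero, nsmul_eq_mul, mul_one]
  rw [cnt, Finset.card_compl]
  have := card_union' s t
  have h3 := inter_le s t
  congr 2
  simp
  omega

theorem KJ : KM * JM Tri = (20 : ℝ) • JM Tri := by
  ext s t
  rw [Matrix.mul_apply]
  simp only [JM_apply, mul_one, Matrix.smul_apply, smul_eq_mul]
  have h1 : ∀ u : Tri, KM s u = if u.1 ⊆ (s.1)ᶜ then 1 else 0 := by
    intro u
    simp only [KM_apply, ← sub_compl_iff]
  rw [Finset.sum_congr rfl (fun u _ => h1 u)]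
  rw [Finset.sum_ite]
  simp only [Finset.sum_const, smul_zero, add_zero, nsmul_eq_mul, mul_one]
  rw [cnt, Finset.card_compl, s.2]
  simp
  norm_num [Nat.choose]

/-- triples disjoint from `s` and containing `i` -/
theorem cnt_mem (s : Tri) (i : Fin 9) :
    (Finset.univ.filter (fun u : Tri => Disjoint s.1 u.1 ∧ i ∈ u.1)).card
      = if i ∈ s.1 then 0 else 10 := by
  split_ifs with h
  · rw [Finset.card_eq_zero, Finset.filter_eq_empty_iff]
    rintro u _ ⟨h1, h2⟩
    exact Finset.disjoint_left.1 h1 h h2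
  · have e1 : (Finset.univ.filter (fun u : Tri => u.1 ⊆ (s.1)ᶜ)).card = 20 := by
      rw [cnt, Finset.card_compl, s.2]; decide
    have e2 : (Finset.univ.filter (fun u : Tri => u.1 ⊆ (insert i s.1)ᶜ)).card = 10 := by
      rw [cnt, Finset.card_compl, Finset.card_insert_of_notMem h, s.2]; decide
    have e3 : (Finset.univ.filter (fun u : Tri => Disjoint s.1 u.1 ∧ i ∈ u.1)).card
        + (Finset.univ.filter (fun u : Tri => u.1 ⊆ (insert i s.1)ᶜ)).card
        = (Finset.univ.filter (fun u : Tri => u.1 ⊆ (s.1)ᶜ)).card := by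
      rw [← Finset.card_union_of_disjoint]
      · congr 1
        ext u
        simp only [Finset.mem_union, Finset.mem_filter, Finset.mem_univ, true_and]
        rw [← sub_compl_iff, ← sub_compl_iff, Finset.disjoint_insert_left]
        by_cases h5 : i ∈ u.1 <;> simp [h5]
      · rw [Finset.disjoint_left]
        intro u hu hu'
        simp only [Finset.mem_filter, Finset.mem_univ, true_and] at hu hu'
        rw [← sub_compl_iff, Finset.disjoint_insert_left] at hu'
        exact hu'.1 hu.2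
    omega

theorem KI : KM * IM = (10 : ℝ) • ((3 : ℝ) • JM Tri - IM) := by
  ext s t
  rw [Matrix.mul_apply]
  simp only [IM_apply, JM_apply, Matrix.smul_apply, Matrix.sub_apply, smul_eq_mul, mul_one]
  have h1 : ∀ u : Tri, KM s u * ((u.1 ∩ t.1).card : ℝ)
      = ∑ i ∈ t.1, (if Disjoint s.1 u.1 ∧ i ∈ u.1 then (1:ℝ) else 0) := by
    intro u
    rw [KM_apply]
    have : ((u.1 ∩ t.1).card : ℝ) = ∑ i ∈ t.1, (if i ∈ u.1 then (1:ℝ) else 0) := by
      rw [Finset.sum_ite]
      simp only [Finset.sum_const, smul_zero, add_zero, nsmul_eq_mul, mul_one]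
      congr 2
      ext i
      simp [and_comm]
    rw [this]
    split_ifs with h
    · simp [h]
    · simp [h]
  rw [Finset.sum_congr rfl (fun u _ => h1 u), Finset.sum_comm]
  have h2 : ∀ i ∈ t.1, (∑ u : Tri, (if Disjoint s.1 u.1 ∧ i ∈ u.1 then (1:ℝ) else 0))
      = 10 - 10 * (if i ∈ s.1 then 1 else 0) := by
    intro i _
    rw [Finset.sum_ite]
    simp only [Finset.sum_const, smul_zero, add_zero, nsmul_eq_mul, mul_one]
    rw [cnt_mem]
    split_ifs <;> norm_num
  rw [Finset.sum_congr rfl h2, Finset.sum_sub_distrib, ← Finset.mul_sum, Finset.sum_const, t.2]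
  have h3 : (∑ i ∈ t.1, (if i ∈ s.1 then (1:ℝ) else 0)) = ((s.1 ∩ t.1).card : ℝ) := by
    rw [Finset.sum_ite]
    simp only [Finset.sum_const, smul_zero, add_zero, nsmul_eq_mul, mul_one]
    congr 2
    ext i
    simp [and_comm]
  rw [h3]
  simp
  ring

theorem KK_eq : KM * KM = (3:ℝ) • KM + (4:ℝ) • (1 : Matrix Tri Tri ℝ) + (6:ℝ) • IM
    - (2:ℝ) • JM Tri := by
  ext s t
  rw [KK]
  simp only [Matrix.add_apply, Matrix.sub_apply, Matrix.smul_apply, smul_eq_mul, IM_apply,
    JM_apply, mul_one, KM_apply, Matrix.one_apply]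
  have h3 := inter_le s t
  have e1 : Disjoint s.1 t.1 ↔ (s.1 ∩ t.1).card = 0 := by
    rw [Finset.card_eq_zero, Finset.disjoint_iff_inter_eq_empty]
  have e2 : s = t ↔ (s.1 ∩ t.1).card = 3 := by
    constructor
    · rintro rfl; rw [Finset.inter_self]; exact s.2
    · intro h
      have h1 : s.1 ∩ t.1 = s.1 := Finset.eq_of_subset_of_card_le Finset.inter_subset_left
        (by rw [h, s.2])
      have h2 : s.1 ∩ t.1 = t.1 := Finset.eq_of_subset_of_card_le Finset.inter_subset_right
        (by rw [h, t.2])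
      exact Subtype.ext (h1.symm.trans h2)
  simp only [e1, e2]
  generalize (s.1 ∩ t.1).card = k at h3
  interval_cases k <;> norm_num [Nat.choose]

theorem KM_cubic : KM * KM * KM + (7:ℝ) • (KM * KM) - (34:ℝ) • KM - (40:ℝ) • (1 : Matrix Tri Tri ℝ)
    = (120:ℝ) • JM Tri := by
  have h1 : KM * KM * KM = (3:ℝ) • (KM * KM) + (4:ℝ) • KM + (6:ℝ) • (KM * IM)
      - (2:ℝ) • (KM * JM Tri) := by
    rw [Matrix.mul_assoc]
    conv_lhs => rw [KK_eq]
    rw [Matrix.mul_sub, Matrix.mul_add, Matrix.mul_add]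
    simp only [Matrix.mul_smul, Matrix.mul_one]
  rw [h1, KI, KJ, KK_eq]
  module

end Pool.Agent.helper3.K93
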