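import Pool.Agent.helper3.K93Int

open Finset

namespace Pool.Agent.helper3.K93

section

variable {V : Type*} [Fintype V] [DecidableEq V] {G : SimpleGraph V} [DecidableRel G.Adj]

variable (D : Dat G) (htri : ∀ v w, G.Adj v w → ∃ u, G.Adj u v ∧ G.Adj u w)

include D

theorem m_self (v : V) : mG G v v = 12 := by
  unfold mG cN
  rw [Finset.inter_self]
  have := D.deg v
  simp only [SimpleGraph.irrefl, if_false, if_true]
  omega

omit D in
theorem m_nonadj {v w : V} (h : v ≠ w) (h' : ¬ G.Adj v w) : mG G v w = cN G v w - 4 := by
  unfold mG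
  simp [h, h']

omit D in
theorem m_adj' {v w : V} (h' : G.Adj v w) : mG G v w = cN G v w - 7 := by
  unfold mG
  have h : v ≠ w := h'.ne
  simp [h, h']
  ring

omit D in
theorem cN_nonneg (v w : V) : 0 ≤ cN G v w := by unfold cN; positivity

include htri

theorem cN_adj {v w : V} (h : G.Adj v w) : cN G v w = 1 := by
  have h1 : ∀ w ∈ G.neighborFinset v, 1 ≤ cN G v w := by
    intro w hw
    rw [SimpleGraph.mem_neighborFinset] at hw
    obtain ⟨u, hu1, hu2⟩ := htri v w hw
    unfold cN
    have : 0 < (G.neighborFinset v ∩ G.neighborFinset w).card := by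
      rw [Finset.card_pos]
      exact ⟨u, by simp [hu1.symm, hu2.symm]⟩
    exact_mod_cast this
  have h2 : ∑ w ∈ G.neighborFinset v, (1 : ℤ) = ∑ w ∈ G.neighborFinset v, cN G v w := by
    rw [D.tri v, Finset.sum_const, nsmul_eq_mul, D.deg v]; norm_num
  have h3 := (Finset.sum_eq_sum_iff_of_le h1).1 h2 w (by simpa using h)
  exact h3.symm

theorem m_adj {v w : V} (h : G.Adj v w) : mG G v w = -6 := by
  rw [m_adj' h, cN_adj D htri h]; norm_num

theorem exists_third {v w : V} (h : G.Adj v w) :
    ∃ u, G.neighborFinset v ∩ G.neighborFinset w = {u} := by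
  have h1 := cN_adj D htri h
  unfold cN at h1
  have h2 : (G.neighborFinset v ∩ G.neighborFinset w).card = 1 := by exact_mod_cast h1
  exact Finset.card_eq_one.1 h2

end

open Classical in
/-- the third point of the triangle on an edge -/
noncomputable def third {V : Type*} [Fintype V] [DecidableEq V] (G : SimpleGraph V)
    [DecidableRel G.Adj] (v w : V) : V :=
  if h : ∃ u, G.neighborFinset v ∩ G.neighborFinset w = {u} then h.choose else v

section

variable {V : Type*} [Fintype V] [DecidableEq V] {G : SimpleGraph V} [DecidableRel G.Adj]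

variable (D : Dat G) (htri : ∀ v w, G.Adj v w → ∃ u, G.Adj u v ∧ G.Adj u w)

include D htri

theorem third_spec {v w : V} (h : G.Adj v w) :
    G.neighborFinset v ∩ G.neighborFinset w = {third G v w} := by
  have h1 := exists_third D htri h
  unfold third
  rw [dif_pos h1]
  exact h1.choose_spec

theorem adj_third_left {v w : V} (h : G.Adj v w) : G.Adj v (third G v w) := by
  have h1 := third_spec D htri h
  have h2 : third G v w ∈ G.neighborFinset v ∩ G.neighborFinset w := by rw [h1]; simp
  simp at h2
  exact h2.1

theorem adj_third_right {v w : V} (h : G.Adj v w) : G.Adj w (third G v w) := by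
  have h1 := third_spec D htri h
  have h2 : third G v w ∈ G.neighborFinset v ∩ G.neighborFinset w := by rw [h1]; simp
  simp at h2
  exact h2.2

theorem eq_third {v w u : V} (h : G.Adj v w) (h1 : G.Adj v u) (h2 : G.Adj w u) :
    u = third G v w := by
  have h3 := third_spec D htri h
  have h4 : u ∈ G.neighborFinset v ∩ G.neighborFinset w := by simp [h1, h2]
  rw [h3] at h4
  simpa using h4

theorem third_third {v w : V} (h : G.Adj v w) : third G v (third G v w) = w := by
  have h1 := adj_third_left D htri h
  have h2 := adj_third_right D htri h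
  exact (eq_third D htri h1 h h2.symm).symm

theorem third_comm {v w : V} (h : G.Adj v w) : third G v w = third G w v :=
  eq_third D htri h.symm (adj_third_right D htri h) (adj_third_left D htri h)

/-- the rows of a triangle sum to zero -/
theorem line_sum {v w : V} (h : G.Adj v w) (z : V) :
    mG G v z + mG G w z + mG G (third G v w) z = 0 := by
  set u := third G v w
  have huv : G.Adj v u := adj_third_left D htri h
  have huw : G.Adj w u := adj_third_right D htri h
  have key : ∑ z, (mG G v z + mG G w z + mG G u z) ^ 2 = 0 := by
    have h1 : ∀ z, (mG G v z + mG G w z + mG G u z) ^ 2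
        = mG G v z * mG G z v + mG G w z * mG G z w + mG G u z * mG G z u
          + 2 * (mG G v z * mG G z w) + 2 * (mG G v z * mG G z u) + 2 * (mG G w z * mG G z u) := by
      intro z
      rw [mG_symm G z v, mG_symm G z w, mG_symm G z u]; ring
    rw [Finset.sum_congr rfl (fun z _ => h1 z)]
    simp only [Finset.sum_add_distrib, ← Finset.mul_sum, D.sq]
    rw [m_self D, m_self D, m_self D, m_adj D htri h, m_adj D htri huv, m_adj D htri huw]
    norm_num
  have h2 := (Finset.sum_eq_zero_iff_of_nonneg (fun z _ => sq_nonneg _)).1 key z (Finset.mem_univ z)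
  exact pow_eq_zero_iff (two_ne_zero) |>.1 h2

/-- the involution on the neighbours of `w`, for the values `m v ·` -/
theorem invol (v w : V) (k : ℤ) :
    ((G.neighborFinset w).filter (fun a => mG G v a = k)).card
      = ((G.neighborFinset w).filter (fun a => mG G v a = - mG G v w - k)).card := by
  apply Finset.card_bij (fun a _ => third G w a)
  · intro a ha
    simp only [Finset.mem_filter, SimpleGraph.mem_neighborFinset] at ha ⊢
    refine ⟨adj_third_left D htri ha.1, ?_⟩
    have h1 := line_sum D htri ha.1 v
    rw [mG_symm G w v, mG_symm G a v, mG_symm G _ v, ha.2] at h1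
    linarith
  · intro a ha b hb hab
    simp only [Finset.mem_filter, SimpleGraph.mem_neighborFinset] at ha hb
    rw [← third_third D htri ha.1, ← third_third D htri hb.1, hab]
  · intro b hb
    simp only [Finset.mem_filter, SimpleGraph.mem_neighborFinset] at hb
    refine ⟨third G w b, ?_, third_third D htri hb.1⟩
    simp only [Finset.mem_filter, SimpleGraph.mem_neighborFinset]
    refine ⟨adj_third_left D htri hb.1, ?_⟩
    have h1 := line_sum D htri hb.1 v
    rw [mG_symm G w v, mG_symm G b v, mG_symm G _ v, hb.2] at h1
    linarith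

/-- for nonadjacent `v,w`, if `a ~ v,w` then the third point of `w a` is not adjacent to `v` -/
theorem third_not_adj {v w a : V} (hvw : v ≠ w) (ha : G.Adj w a) (hva : G.Adj v a) :
    ¬ G.Adj v (third G w a) := by
  intro h
  have h1 := adj_third_right D htri ha
  have h2 := adj_third_left D htri ha
  -- edge a, third: common neighbours v and w
  have h3 := eq_third D htri h1 ha.symm h2.symm
  have h4 := eq_third D htri h1 hva.symm h.symm
  exact hvw (h4.trans h3.symm)

theorem cN_le {v w : V} (h : v ≠ w) : cN G v w ≤ 10 := by
  have h1 : ((G.neighborFinset v ∩ G.neighborFinset w).image (third G w)).card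
      = (G.neighborFinset v ∩ G.neighborFinset w).card := by
    apply Finset.card_image_of_injOn
    intro a ha b hb hab
    simp only [Finset.coe_inter, Set.mem_inter_iff, Finset.mem_coe,
      SimpleGraph.mem_neighborFinset] at ha hb
    rw [← third_third D htri ha.2, ← third_third D htri hb.2, hab]
  have h2 : Disjoint (G.neighborFinset v ∩ G.neighborFinset w)
      ((G.neighborFinset v ∩ G.neighborFinset w).image (third G w)) := by
    rw [Finset.disjoint_left]
    intro b hb hb'
    rw [Finset.mem_image] at hb'
    obtain ⟨a, ha, rfl⟩ := hb'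
    simp only [Finset.mem_inter, SimpleGraph.mem_neighborFinset] at ha hb
    exact third_not_adj D htri h ha.2 ha.1 hb.1
  have h3 : (G.neighborFinset v ∩ G.neighborFinset w) ∪
      ((G.neighborFinset v ∩ G.neighborFinset w).image (third G w)) ⊆ G.neighborFinset w := by
    apply Finset.union_subset Finset.inter_subset_right
    intro b hb
    rw [Finset.mem_image] at hb
    obtain ⟨a, ha, rfl⟩ := hb
    simp only [Finset.mem_inter, SimpleGraph.mem_neighborFinset] at ha ⊢
    exact adj_third_left D htri ha.2
  have h4 := Finset.card_le_card h3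
  rw [Finset.card_union_of_disjoint h2, h1] at h4
  have h5 := D.deg w
  unfold cN
  omega

/-- if `w` has fewer than 10 common neighbours with `v`, some triangle at `w` misses `N(v)` -/
theorem exists_free_line {v w : V} (h : v ≠ w) (hc : cN G v w < 10) :
    ∃ a, G.Adj w a ∧ ¬ G.Adj v a ∧ ¬ G.Adj v (third G w a) := by
  by_contra hcon
  push Not at hcon
  have h3 : G.neighborFinset w ⊆ (G.neighborFinset v ∩ G.neighborFinset w) ∪
      ((G.neighborFinset v ∩ G.neighborFinset w).image (third G w)) := by
    intro a ha
    rw [SimpleGraph.mem_neighborFinset] at ha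
    rw [Finset.mem_union]
    by_cases hva : G.Adj v a
    · left; simp [hva, ha]
    · right
      rw [Finset.mem_image]
      refine ⟨third G w a, ?_, third_third D htri ha⟩
      simp only [Finset.mem_inter, SimpleGraph.mem_neighborFinset]
      exact ⟨hcon a ha hva, adj_third_left D htri ha⟩
  have h4 := (Finset.card_le_card h3).trans (Finset.card_union_le _ _)
  have h5 := Finset.card_image_le (s := G.neighborFinset v ∩ G.neighborFinset w)
    (f := third G w)
  have h6 := D.deg w
  unfold cN at hc
  omega

/-- the possible values at non-neighbours, first bounds -/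
theorem range1 {v w : V} (h : v ≠ w) (h' : ¬ G.Adj v w) :
    mG G v w = -4 ∨ (0 ≤ mG G v w ∧ mG G v w ≤ 6) := by
  have h1 := m_nonadj h h'
  have h2 := cN_le D htri h
  have h3 : 0 ≤ cN G v w := cN_nonneg v w
  by_cases h4 : cN G v w = 0
  · left; rw [h1, h4]; norm_num
  · right
    refine ⟨?_, by omega⟩
    have h5 : 0 < (G.neighborFinset v ∩ G.neighborFinset w).card := by
      unfold cN at h4 h3
      omega
    obtain ⟨a, ha⟩ := Finset.card_pos.1 h5
    simp only [Finset.mem_inter, SimpleGraph.mem_neighborFinset] at ha
    have h6 := third_not_adj D htri h ha.2 ha.1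
    have h7 : v ≠ third G w a := by
      intro h8
      have := adj_third_left D htri ha.2
      rw [← h8] at this
      exact h' this.symm
    have h8 := cN_le D htri h7
    have h9 := m_nonadj h7 h6
    have h10 := line_sum D htri ha.2 v
    rw [mG_symm G w v, mG_symm G a v, mG_symm G _ v, m_adj D htri ha.1] at h10
    omega

theorem range5 {v w : V} (h : v ≠ w) (h' : ¬ G.Adj v w) : mG G v w ≠ 5 := by
  intro h5
  have h1 := m_nonadj h h'
  obtain ⟨a, ha, hva, hvb⟩ := exists_free_line D htri h (by omega)
  have e1 : v ≠ a := fun e => h' (by rw [e]; exact ha.symm)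
  have e2 : v ≠ third G w a := fun e => h' (by
    have := adj_third_left D htri ha
    rw [← e] at this; exact this.symm)
  have h2 := range1 D htri e1 hva
  have h3 := range1 D htri e2 hvb
  have h10 := line_sum D htri ha v
  rw [mG_symm G w v, mG_symm G a v, mG_symm G _ v] at h10
  omega

theorem range1' {v w : V} (h : v ≠ w) (h' : ¬ G.Adj v w) : mG G v w ≠ 1 := by
  intro h5
  have h1 := m_nonadj h h'
  have h5' : 0 < (G.neighborFinset v ∩ G.neighborFinset w).card := by
    unfold cN at h1
    omega
  obtain ⟨a, ha⟩ := Finset.card_pos.1 h5'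
  simp only [Finset.mem_inter, SimpleGraph.mem_neighborFinset] at ha
  have h6 := third_not_adj D htri h ha.2 ha.1
  have h7 : v ≠ third G w a := by
    intro h8
    have := adj_third_left D htri ha.2
    rw [← h8] at this
    exact h' this.symm
  have h8 := range5 D htri h7 h6
  have h10 := line_sum D htri ha.2 v
  rw [mG_symm G w v, mG_symm G a v, mG_symm G _ v, m_adj D htri ha.1] at h10
  omega

theorem range3 {v w : V} (h : v ≠ w) (h' : ¬ G.Adj v w) : mG G v w ≠ 3 := by
  intro h5
  have h1 := m_nonadj h h'
  obtain ⟨a, ha, hva, hvb⟩ := exists_free_line D htri h (by omega)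
  have e1 : v ≠ a := fun e => h' (by rw [e]; exact ha.symm)
  have e2 : v ≠ third G w a := fun e => h' (by
    have := adj_third_left D htri ha
    rw [← e] at this; exact this.symm)
  have h2 := range1 D htri e1 hva
  have h3 := range1 D htri e2 hvb
  have h4 := range1' D htri e1 hva
  have h6 := range1' D htri e2 hvb
  have h10 := line_sum D htri ha v
  rw [mG_symm G w v, mG_symm G a v, mG_symm G _ v] at h10
  omega

theorem range {v w : V} (h : v ≠ w) (h' : ¬ G.Adj v w) :
    mG G v w = -4 ∨ mG G v w = 0 ∨ mG G v w = 2 ∨ mG G v w = 4 ∨ mG G v w = 6 := by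
  have h1 := range1 D htri h h'
  have h2 := range1' D htri h h'
  have h3 := range3 D htri h h'
  have h4 := range5 D htri h h'
  omega

theorem range_all (v w : V) :
    mG G v w = 12 ∨ mG G v w = -6 ∨ mG G v w = -4 ∨ mG G v w = 0 ∨ mG G v w = 2 ∨
      mG G v w = 4 ∨ mG G v w = 6 := by
  by_cases h : v = w
  · left; rw [h]; exact m_self D w
  · by_cases h' : G.Adj v w
    · right; left; exact m_adj D htri h'
    · right; right; exact range D htri h h'

theorem m12_iff (v w : V) : mG G v w = 12 ↔ v = w := by
  constructor
  · intro h
    by_contra hne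
    by_cases h' : G.Adj v w
    · have := m_adj D htri h'; omega
    · have := range D htri hne h'; omega
  · rintro rfl; exact m_self D v

theorem m6_iff (v w : V) : mG G v w = -6 ↔ G.Adj v w := by
  constructor
  · intro h
    by_contra h'
    by_cases hne : v = w
    · rw [hne, m_self D] at h; omega
    · have := range D htri hne h'; omega
  · exact m_adj D htri

end

end Pool.Agent.helper3.K93
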