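import Pool.Agent.helper3.K93CS
import Pool.Agent.helper3.K93Iso

open Finset

namespace Pool.Agent.helper3.K93

section

variable {V : Type*} [Fintype V] [DecidableEq V] {G : SimpleGraph V} [DecidableRel G.Adj]

/-- the Gram matrix divided by 6 -/
def gG (G : SimpleGraph V) [DecidableRel G.Adj] (v w : V) : ℤ := mG G v w / 6

variable (D : Dat G) (htri : ∀ v w, G.Adj v w → ∃ u, G.Adj u v ∧ G.Adj u w)

include D htri

theorem m_eq (v w : V) : mG G v w = 6 * gG G v w := by
  unfold gG
  rcases m_values D htri v w with h | h | h | h <;> rw [h] <;> norm_num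

theorem g_adj (v w : V) : gG G v w = -1 ↔ G.Adj v w := by
  rw [← m6_iff D htri, m_eq D htri]
  omega

theorem com_eq (v w : V) :
    ((univ.filter (fun a => gG G v a = -1 ∧ gG G w a = -1)).card : ℤ) = cN G v w := by
  unfold cN
  congr 2
  ext a
  simp only [mem_filter, mem_univ, true_and, mem_inter, SimpleGraph.mem_neighborFinset]
  rw [g_adj D htri, g_adj D htri]

theorem nb_eq (v : V) : univ.filter (fun a => gG G v a = -1) = G.neighborFinset v := by
  ext a
  simp only [mem_filter, mem_univ, true_and, SimpleGraph.mem_neighborFinset]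
  rw [g_adj D htri]

theorem toRD : RD V (gG G) where
  card := D.card
  symm := by intro v w; unfold gG; rw [mG_symm]
  self := by intro v; unfold gG; rw [m_self D]; norm_num
  vals := by
    intro v w hvw
    have h1 := m_values D htri v w
    have h2 : mG G v w ≠ 12 := fun h => hvw ((m12_iff D htri v w).1 h)
    have h3 := m_eq D htri v w
    omega
  S := by
    intro v w
    have h1 := sq' D v w
    simp only [m_eq D htri] at h1
    have h2 : ∀ z, 6 * gG G v z * (6 * gG G w z) = 36 * (gG G v z * gG G w z) := by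
      intro z; ring
    simp only [h2, ← Finset.mul_sum] at h1
    linarith
  NS := by
    intro v w
    rw [nb_eq D htri]
    have h1 := D.sumA v w
    simp only [m_eq D htri, ← Finset.mul_sum] at h1
    linarith
  Nc := by intro v; rw [nb_eq D htri]; exact D.deg v
  third := by
    intro v w h
    rw [g_adj D htri] at h
    refine ⟨third G v w, fun z => ?_⟩
    have h1 := line_sum D htri h z
    simp only [m_eq D htri] at h1
    linarith
  com := by
    intro v w hvw h
    rw [com_eq D htri]
    have h1 : ¬ G.Adj v w := by rw [← g_adj D htri]; exact h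
    have h2 := m_nonadj hvw h1
    have h3 := m_eq D htri v w
    linarith
  comA := by
    intro v w h
    rw [com_eq D htri]
    rw [g_adj D htri] at h
    exact cN_adj D htri h

end

theorem dot_eq (T T' : Finset (Fin 9)) : ∑ i, ind T i * ind T' i = ((T ∩ T').card : ℤ) := by
  have : ∀ i, ind T i * ind T' i = if i ∈ T ∩ T' then 1 else 0 := by
    intro i
    unfold ind
    by_cases h1 : i ∈ T <;> by_cases h2 : i ∈ T' <;> simp [h1, h2]
  rw [Finset.sum_congr rfl (fun i _ => this i), Finset.sum_boole]
  congr 2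
  ext i; simp

theorem RD.exists_iso {V : Type*} [Fintype V] [DecidableEq V] {g : V → V → ℤ} (R : RD V g) :
    ∃ φ : Tri ≃ V, ∀ S T, g (φ S) (φ T) = -1 ↔ Disjoint S.1 T.1 := by
  classical
  have hne : Nonempty V := by
    rw [← Fintype.card_pos_iff, R.card]; norm_num
  obtain ⟨y⟩ := hne
  have hG := R.Gc y
  have hpos : 0 < (univ.filter (fun a => g y a = 1)).card := by omega
  obtain ⟨w, hw⟩ := Finset.card_pos.1 hpos
  simp only [mem_filter, mem_univ, true_and] at hw
  obtain ⟨a, p, q, ha, haa, hyp, hwp, hyq, hwq, hpq, hap⟩ := R.config hw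
  have hB := R.Bv_gram hw ha haa hyp hwp hyq hwq hpq hap
  set B := RD.Bv y w a p q with hBdef
  have hall : ∀ T : Finset (Fin 9), T.card = 3 → ∃ v, Good g B T v := by
    apply closure
    · intro b; exact ⟨_, RD.good_base hB b⟩
    · intro T0 T1 T2 T3 h0 h1 h2 d1 d2 d3 d
      exact R.good_step h0 h1 h2 d1 d2 d3 d
  choose φ hφ using fun T : Tri => hall T.1 T.2
  have hdot : ∀ S T : Tri, g (φ S) (φ T) = ((S.1 ∩ T.1).card : ℤ) - 1 := by
    intro S T
    rw [RD.good_dot (hφ S) (hφ T), dot_eq]
  have hinj : Function.Injective φ := by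
    intro S T h
    have h1 := hdot S T
    rw [h, R.self] at h1
    have h2 : (S.1 ∩ T.1).card = 3 := by omega
    have h3 : S.1 ∩ T.1 = S.1 := Finset.eq_of_subset_of_card_le Finset.inter_subset_left
      (by rw [h2, S.2])
    have h4 : S.1 ∩ T.1 = T.1 := Finset.eq_of_subset_of_card_le Finset.inter_subset_right
      (by rw [h2, T.2])
    exact Subtype.ext (h3.symm.trans h4)
  have hbij : Function.Bijective φ := by
    rw [Fintype.bijective_iff_injective_and_card]
    exact ⟨hinj, by rw [card_tri, R.card]⟩
  refine ⟨Equiv.ofBijective φ hbij, fun S T => ?_⟩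
  rw [Equiv.ofBijective_apply, Equiv.ofBijective_apply, hdot, Finset.disjoint_iff_inter_eq_empty,
    ← Finset.card_eq_zero]
  omega

theorem main {V : Type*} [Fintype V] [DecidableEq V] (G : SimpleGraph V) [DecidableRel G.Adj]
    (hcosp : (G.adjMatrix ℝ).charpoly = (kneser93.adjMatrix ℝ).charpoly)
    (htri : ∀ v w, G.Adj v w → ∃ u, G.Adj u v ∧ G.Adj u w) : Nonempty (G ≃g kneser93) := by
  have D := dat G hcosp
  obtain ⟨φ, hφ⟩ := (toRD D htri).exists_iso
  refine ⟨⟨φ.symm, ?_⟩⟩
  intro v w
  rw [kneser93_adj, ← hφ, Equiv.apply_symm_apply, Equiv.apply_symm_apply, g_adj D htri]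

end Pool.Agent.helper3.K93
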