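import Mathlib

/-!
Abstract root-type data: `84` vectors of norm `2` with inner products in `{1,0,-1}`, forming a
tight frame, with `20` neighbours (inner product `-1`) each.
-/

open Finset

namespace Pool.Agent.helper3.K93

/-- the abstract data -/
structure RD (V : Type*) [Fintype V] [DecidableEq V] (g : V → V → ℤ) : Prop where
  card : Fintype.card V = 84
  symm : ∀ v w, g v w = g w v
  self : ∀ v, g v v = 2
  vals : ∀ v w, v ≠ w → g v w = 1 ∨ g v w = 0 ∨ g v w = -1
  S : ∀ v w, ∑ z, g v z * g w z = 21 * g v w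
  NS : ∀ v w, ∑ a ∈ univ.filter (fun a => g v a = -1), g a w = -10 * g v w
  Nc : ∀ v, ((univ.filter (fun a => g v a = -1)).card : ℤ) = 20
  third : ∀ v w, g v w = -1 → ∃ t, ∀ z, g v z + g w z + g t z = 0
  com : ∀ v w, v ≠ w → g v w ≠ -1 →
    ((univ.filter (fun a => g v a = -1 ∧ g w a = -1)).card : ℤ) = 6 * g v w + 4
  comA : ∀ v w, g v w = -1 →
    ((univ.filter (fun a => g v a = -1 ∧ g w a = -1)).card : ℤ) = 1

namespace RD

variable {V : Type*} [Fintype V] [DecidableEq V] {g : V → V → ℤ} (R : RD V g)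

include R

/-- neighbours -/
theorem ge (v w : V) : -1 ≤ g v w := by
  by_cases h : v = w
  · rw [h, R.self]; norm_num
  · have := R.vals v w h; omega

theorem le (v w : V) : g v w ≤ 2 := by
  by_cases h : v = w
  · rw [h, R.self]
  · have := R.vals v w h; omega

theorem eq_of_two {v w : V} (h : g v w = 2) : v = w := by
  by_contra hne
  have := R.vals v w hne; omega

/-- if `a ~ b` then `g y a + g y b ≤ 1` -/
theorem adj_le {a b : V} (h : g a b = -1) (y : V) : g y a + g y b ≤ 1 := by
  obtain ⟨t, ht⟩ := R.third a b h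
  have h1 := ht y
  have h2 := R.ge t y
  rw [R.symm y a, R.symm y b]
  omega

/-- two vertices with `g = 1` to `y` are not adjacent -/
theorem not_adj {y a b : V} (ha : g y a = 1) (hb : g y b = 1) : g a b ≠ -1 := by
  intro h
  have := R.adj_le h y
  omega

/-- if `g y w = 1` and `a ~ w` then `g a y ∈ {-1,0}` -/
theorem adj_val {y w a : V} (h : g y w = 1) (ha : g w a = -1) : g y a = -1 ∨ g y a = 0 := by
  have h1 := R.adj_le ha y
  have h2 := R.ge y a
  omega

/-- norm of a difference -/
theorem norm4 (a b c d : V) :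
    ∑ z, (g a z - g b z - g c z + g d z) ^ 2
      = 21 * (8 - 2 * g a b - 2 * g a c + 2 * g a d + 2 * g b c - 2 * g b d - 2 * g c d) := by
  have h1 : ∀ z, (g a z - g b z - g c z + g d z) ^ 2 = g a z * g a z + g b z * g b z
      + g c z * g c z + g d z * g d z - 2 * (g a z * g b z) - 2 * (g a z * g c z)
      + 2 * (g a z * g d z) + 2 * (g b z * g c z) - 2 * (g b z * g d z)
      - 2 * (g c z * g d z) := by
    intro z; ring
  rw [Finset.sum_congr rfl (fun z _ => h1 z)]
  simp only [Finset.sum_add_distrib, Finset.sum_sub_distrib, ← Finset.mul_sum, R.S, R.self]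
  ring

theorem eq4 {a b c d : V}
    (h : 8 - 2 * g a b - 2 * g a c + 2 * g a d + 2 * g b c - 2 * g b d - 2 * g c d = 0) (z : V) :
    g a z = g b z + g c z - g d z := by
  have h1 := R.norm4 a b c d
  rw [h, mul_zero] at h1
  have h2 := (Finset.sum_eq_zero_iff_of_nonneg (fun z _ => sq_nonneg _)).1 h1 z (Finset.mem_univ z)
  have h3 := pow_eq_zero_iff (two_ne_zero) |>.1 h2
  linarith

theorem norm4' (a b c d : V) :
    ∑ z, (g a z + g b z + g c z - g d z) ^ 2
      = 21 * (8 + 2 * g a b + 2 * g a c - 2 * g a d + 2 * g b c - 2 * g b d - 2 * g c d) := by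
  have h1 : ∀ z, (g a z + g b z + g c z - g d z) ^ 2 = g a z * g a z + g b z * g b z
      + g c z * g c z + g d z * g d z + 2 * (g a z * g b z) + 2 * (g a z * g c z)
      - 2 * (g a z * g d z) + 2 * (g b z * g c z) - 2 * (g b z * g d z)
      - 2 * (g c z * g d z) := by
    intro z; ring
  rw [Finset.sum_congr rfl (fun z _ => h1 z)]
  simp only [Finset.sum_add_distrib, Finset.sum_sub_distrib, ← Finset.mul_sum, R.S, R.self]
  ring

theorem eq4' {a b c d : V}
    (h : 8 + 2 * g a b + 2 * g a c - 2 * g a d + 2 * g b c - 2 * g b d - 2 * g c d = 0) (z : V) :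
    g a z + g b z + g c z - g d z = 0 := by
  have h1 := R.norm4' a b c d
  rw [h, mul_zero] at h1
  have h2 := (Finset.sum_eq_zero_iff_of_nonneg (fun z _ => sq_nonneg _)).1 h1 z (Finset.mem_univ z)
  exact pow_eq_zero_iff (two_ne_zero) |>.1 h2

/-- splitting a sum according to the value of `g v ·` -/
theorem split (v : V) (F : V → ℤ) :
    ∑ z, g v z * F z = 2 * F v - ∑ a ∈ univ.filter (fun a => g v a = -1), F a
      + ∑ a ∈ univ.filter (fun a => g v a = 1), F a := by
  rw [Finset.sum_filter, Finset.sum_filter]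
  have h1 : 2 * F v = ∑ a, if a = v then 2 * F a else 0 := by simp
  rw [h1, ← Finset.sum_sub_distrib, ← Finset.sum_add_distrib]
  refine Finset.sum_congr rfl fun z _ => ?_
  by_cases h : z = v
  · subst h
    rw [R.self]; norm_num
  · have h2 := R.vals v z (Ne.symm h)
    rcases h2 with h2 | h2 | h2 <;> rw [h2] <;> simp [h]

/-- `∑_{Γ(w)} z = 9 w` -/
theorem GS (w z : V) : ∑ a ∈ univ.filter (fun a => g w a = 1), g a z = 9 * g w z := by
  have h1 := R.split w (fun a => g a z)
  have h2 : ∑ a, g w a * g a z = 21 * g w z := by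
    rw [← R.S w z]
    refine Finset.sum_congr rfl fun a _ => by rw [R.symm a z]
  rw [h2, R.NS w z] at h1
  linarith

theorem Gc (v : V) : ((univ.filter (fun a => g v a = 1)).card : ℤ) = 18 := by
  have h1 := R.split v (fun a => g v a)
  rw [R.S v v, R.self] at h1
  have h2 : ∑ a ∈ univ.filter (fun a => g v a = -1), g v a
      = -((univ.filter (fun a => g v a = -1)).card : ℤ) := by
    have : ∀ a ∈ univ.filter (fun a => g v a = -1), g v a = -1 := by
      intro a ha; simpa using ha
    rw [Finset.sum_congr rfl this]; simp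
  have h3 : ∑ a ∈ univ.filter (fun a => g v a = 1), g v a
      = ((univ.filter (fun a => g v a = 1)).card : ℤ) := by
    have : ∀ a ∈ univ.filter (fun a => g v a = 1), g v a = 1 := by
      intro a ha; simpa using ha
    rw [Finset.sum_congr rfl this]; simp
  rw [h2, h3, R.Nc] at h1
  linarith

end RD

end Pool.Agent.helper3.K93
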