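import Pool.Agent.helper3.K93Kneser

open Matrix Finset

namespace Pool.Agent.helper3.K93

theorem exists_orth {n : Type*} [Fintype n] [DecidableEq n] (A B : Matrix n n ℝ)
    (hA : A.IsHermitian) (hB : B.IsHermitian) (h : A.charpoly = B.charpoly) :
    ∃ Q : Matrix n n ℝ, Qᵀ * Q = 1 ∧ Q * Qᵀ = 1 ∧ A = Q * B * Qᵀ := by
  have he : hA.eigenvalues = hB.eigenvalues := (hA.eigenvalues_eq_eigenvalues_iff hB).2 h
  have h1 := hA.spectral_theorem
  have h2 := hB.spectral_theorem
  rw [Unitary.conjStarAlgAut_apply] at h1 h2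
  set U : Matrix n n ℝ := (hA.eigenvectorUnitary : Matrix n n ℝ) with hU
  set W : Matrix n n ℝ := (hB.eigenvectorUnitary : Matrix n n ℝ) with hW
  have hU1 : U * star U = 1 := Unitary.coe_mul_star_self hA.eigenvectorUnitary
  have hU2 : star U * U = 1 := Unitary.coe_star_mul_self hA.eigenvectorUnitary
  have hW1 : W * star W = 1 := Unitary.coe_mul_star_self hB.eigenvectorUnitary
  have hW2 : star W * W = 1 := Unitary.coe_star_mul_self hB.eigenvectorUnitary
  have sU : star U = Uᵀ := by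
    rw [Matrix.star_eq_conjTranspose, Matrix.conjTranspose_eq_transpose_of_trivial]
  have sW : star W = Wᵀ := by
    rw [Matrix.star_eq_conjTranspose, Matrix.conjTranspose_eq_transpose_of_trivial]
  rw [sU] at hU1 hU2
  rw [sW] at hW1 hW2
  refine ⟨U * Wᵀ, ?_, ?_, ?_⟩
  · rw [Matrix.transpose_mul, Matrix.transpose_transpose]
    calc W * Uᵀ * (U * Wᵀ) = W * (Uᵀ * U) * Wᵀ := by simp only [Matrix.mul_assoc]
      _ = 1 := by rw [hU2, Matrix.mul_one, hW1]
  · rw [Matrix.transpose_mul, Matrix.transpose_transpose]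
    calc U * Wᵀ * (W * Uᵀ) = U * (Wᵀ * W) * Uᵀ := by simp only [Matrix.mul_assoc]
      _ = 1 := by rw [hW2, Matrix.mul_one, hU1]
  · rw [Matrix.transpose_mul, Matrix.transpose_transpose]
    have h3 : B = W * diagonal (RCLike.ofReal ∘ hB.eigenvalues) * Wᵀ := by
      rw [← sW]; exact h2
    have h4 : A = U * diagonal (RCLike.ofReal ∘ hA.eigenvalues) * Uᵀ := by
      rw [← sU]; exact h1
    rw [he] at h4
    generalize (diagonal (RCLike.ofReal ∘ hB.eigenvalues) : Matrix n n ℝ) = D at h3 h4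
    rw [h3, h4]
    calc U * D * Uᵀ = U * (Wᵀ * W) * D * (Wᵀ * W) * Uᵀ := by
          rw [hW2, Matrix.mul_one, Matrix.mul_one]
      _ = U * Wᵀ * (W * D * Wᵀ) * (W * Uᵀ) := by simp only [Matrix.mul_assoc]

theorem sum_const_tri (c : ℝ) : ∑ _i : Tri, c = 84 * c := by
  simp only [Finset.sum_const, Finset.card_univ, card_tri, nsmul_eq_mul]
  push_cast
  ring

/-- a symmetric 0-1 matrix on `Tri` with the characteristic polynomial of `K(9,3)` -/
theorem spec_tri (H : SimpleGraph Tri) [DecidableRel H.Adj]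
    (hc : (H.adjMatrix ℝ).charpoly = KM.charpoly) :
    (H.adjMatrix ℝ) * JM Tri = (20:ℝ) • JM Tri ∧
    (H.adjMatrix ℝ) * (H.adjMatrix ℝ) * (H.adjMatrix ℝ)
      + (7:ℝ) • ((H.adjMatrix ℝ) * (H.adjMatrix ℝ)) - (34:ℝ) • (H.adjMatrix ℝ)
      - (40:ℝ) • (1 : Matrix Tri Tri ℝ) = (120:ℝ) • JM Tri := by
  set A := H.adjMatrix ℝ with hAdef
  have hAs : Aᵀ = A := H.isSymm_adjMatrix
  have hKs : KMᵀ = KM := kneser93.isSymm_adjMatrix
  have hAh : A.IsHermitian := by
    unfold Matrix.IsHermitian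
    rw [Matrix.conjTranspose_eq_transpose_of_trivial]; exact hAs
  have hKh : KM.IsHermitian := by
    unfold Matrix.IsHermitian
    rw [Matrix.conjTranspose_eq_transpose_of_trivial]; exact hKs
  obtain ⟨Q, hQ1, hQ2, hQ⟩ := exists_orth A KM hAh hKh hc
  have conj_mul : ∀ X Y : Matrix Tri Tri ℝ, (Q * X * Qᵀ) * (Q * Y * Qᵀ) = Q * (X * Y) * Qᵀ := by
    intro X Y
    calc (Q * X * Qᵀ) * (Q * Y * Qᵀ) = Q * X * (Qᵀ * Q) * Y * Qᵀ := by
          simp only [Matrix.mul_assoc]
      _ = Q * (X * Y) * Qᵀ := by rw [hQ1, Matrix.mul_one]; simp only [Matrix.mul_assoc]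
  have hAA : A * A = Q * (KM * KM) * Qᵀ := by rw [hQ, conj_mul]
  have hAAA : A * A * A = Q * (KM * KM * KM) * Qᵀ := by
    rw [hAA]; conv_lhs => rw [hQ]
    rw [conj_mul]
  have hp : A * A * A + (7:ℝ) • (A * A) - (34:ℝ) • A - (40:ℝ) • (1 : Matrix Tri Tri ℝ)
      = Q * ((120:ℝ) • JM Tri) * Qᵀ := by
    rw [← KM_cubic, hAAA, hAA]
    conv_lhs => rw [hQ]
    have h1 : (1 : Matrix Tri Tri ℝ) = Q * 1 * Qᵀ := by rw [Matrix.mul_one, hQ2]
    conv_lhs => rw [h1]
    simp only [Matrix.mul_sub, Matrix.mul_add, Matrix.sub_mul, Matrix.add_mul,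
      Matrix.mul_smul, Matrix.smul_mul]
  -- number of ones
  have htr : ∑ i, ∑ j, A i j = 1680 := by
    have h1 : ∀ i j, A i j = A i j * A j i := by
      intro i j
      have : A j i = A i j := congrFun (congrFun hAs i) j
      rw [this, hAdef, SimpleGraph.adjMatrix_apply]
      split_ifs <;> simp
    have h2 : ∑ i, ∑ j, A i j = (A * A).trace := by
      rw [Matrix.trace]
      refine Finset.sum_congr rfl fun i _ => ?_
      rw [Matrix.diag_apply, Matrix.mul_apply]
      exact Finset.sum_congr rfl fun j _ => h1 i j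
    rw [h2, hAA, Matrix.trace_mul_comm, ← Matrix.mul_assoc, hQ1, Matrix.one_mul]
    rw [Matrix.trace]
    have h3 : ∀ s : Tri, (KM * KM).diag s = 20 := by
      intro s
      rw [Matrix.diag_apply, KK, Finset.inter_self, s.2]
      norm_num [Nat.choose]
    rw [Finset.sum_congr rfl (fun s _ => h3 s), sum_const_tri]
    norm_num
  -- positive semidefiniteness of 20 - A
  have hKpsd : ((20:ℝ) • (1 : Matrix Tri Tri ℝ) - KM).PosSemidef := by
    have h1 := SimpleGraph.posSemidef_lapMatrix ℝ kneser93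
    have h2 : SimpleGraph.lapMatrix ℝ kneser93 = (20:ℝ) • (1 : Matrix Tri Tri ℝ) - KM := by
      have h3 : SimpleGraph.degMatrix ℝ kneser93 = (20:ℝ) • (1 : Matrix Tri Tri ℝ) := by
        ext s t
        simp only [SimpleGraph.degMatrix, Matrix.smul_apply, smul_eq_mul]
        by_cases hst : s = t
        · subst hst
          rw [Matrix.diagonal_apply_eq, Matrix.one_apply_eq]
          have h4 := congrFun (congrFun KJ s) s
          rw [Matrix.mul_apply] at h4
          simp only [JM_apply, mul_one, Matrix.smul_apply, smul_eq_mul] at h4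
          rw [← h4]
          simp only [KM, SimpleGraph.adjMatrix_apply, Finset.sum_boole, mul_one, Nat.cast_inj]
          rw [← SimpleGraph.card_neighborFinset_eq_degree, SimpleGraph.neighborFinset_eq_filter]
        · rw [Matrix.diagonal_apply_ne _ hst, Matrix.one_apply_ne hst]; simp
      rw [SimpleGraph.lapMatrix, h3]
    rw [← h2]; exact h1
  have hApsd : ((20:ℝ) • (1 : Matrix Tri Tri ℝ) - A).PosSemidef := by
    have h1 := hKpsd.conjTranspose_mul_mul_same (Qᵀ)
    rw [Matrix.conjTranspose_eq_transpose_of_trivial, Matrix.transpose_transpose] at h1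
    have h2 : Q * ((20:ℝ) • (1 : Matrix Tri Tri ℝ) - KM) * Qᵀ
        = (20:ℝ) • (1 : Matrix Tri Tri ℝ) - A := by
      rw [Matrix.mul_sub, Matrix.sub_mul, ← hQ, Matrix.mul_smul, Matrix.mul_one,
        Matrix.smul_mul, hQ2]
    rw [← h2]; exact h1
  have hreg : ((20:ℝ) • (1 : Matrix Tri Tri ℝ) - A) *ᵥ (fun _ => (1:ℝ)) = 0 := by
    rw [← hApsd.dotProduct_mulVec_zero_iff]
    have h1 : ∀ i, (((20:ℝ) • (1 : Matrix Tri Tri ℝ) - A) *ᵥ (fun _ => (1:ℝ))) i
        = 20 - ∑ j, A i j := by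
      intro i
      rw [Matrix.sub_mulVec, Matrix.smul_mulVec, Matrix.one_mulVec]
      simp [Matrix.mulVec, dotProduct]
    simp only [dotProduct, h1, star_trivial, one_mul]
    rw [Finset.sum_sub_distrib, htr, sum_const_tri]
    norm_num
  have hrow : ∀ i, ∑ j, A i j = 20 := by
    intro i
    have h1 := congrFun hreg i
    rw [Matrix.sub_mulVec, Matrix.smul_mulVec, Matrix.one_mulVec] at h1
    simp [Matrix.mulVec, dotProduct] at h1
    linarith
  have hAJ : A * JM Tri = (20:ℝ) • JM Tri := by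
    ext i j
    rw [Matrix.mul_apply]
    simp [hrow]
  refine ⟨hAJ, ?_⟩
  rw [hp]
  -- Q J Qᵀ
  set P := A * A * A + (7:ℝ) • (A * A) - (34:ℝ) • A - (40:ℝ) • (1 : Matrix Tri Tri ℝ) with hP
  have hPJ : P * JM Tri = (10080:ℝ) • JM Tri := by
    rw [hP, Matrix.sub_mul, Matrix.sub_mul, Matrix.add_mul]
    simp only [Matrix.smul_mul, Matrix.mul_assoc, hAJ, Matrix.mul_smul, Matrix.one_mul, smul_smul]
    module
  set u : Tri → ℝ := fun i => ∑ j, Q i j with hu
  have hPu : ∀ i j, P i j = 120 * (u i * u j) := by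
    intro i j
    rw [hp, Matrix.mul_smul, Matrix.smul_mul, Matrix.smul_apply, smul_eq_mul]
    have h1 : ∀ k, (Q * JM Tri) i k = u i := by
      intro k
      rw [Matrix.mul_apply]; simp [hu]
    have h2 : (Q * JM Tri * Qᵀ) i j = u i * u j := by
      rw [Matrix.mul_apply]
      simp only [h1, Matrix.transpose_apply]
      rw [← Finset.mul_sum]
    rw [h2]
  set c : ℝ := ∑ j, u j with hcdef
  have h5 : ∀ i, u i * c = 84 := by
    intro i
    have h6 := congrFun (congrFun hPJ i) i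
    rw [Matrix.mul_apply] at h6
    simp only [JM_apply, mul_one, Matrix.smul_apply, smul_eq_mul, hPu] at h6
    rw [← Finset.mul_sum, ← Finset.mul_sum] at h6
    linarith
  have h7 : c * c = 84 * 84 := by
    have : ∑ i, u i * c = ∑ i : Tri, (84:ℝ) := Finset.sum_congr rfl fun i _ => h5 i
    rw [← Finset.sum_mul, sum_const_tri, ← hcdef] at this
    exact this
  rw [← hp]
  ext i j
  rw [hPu]
  have h8 : (u i * u j) * (c * c) = 84 * 84 := by
    have := h5 i; have h9 := h5 j
    calc (u i * u j) * (c * c) = (u i * c) * (u j * c) := by ring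
      _ = 84 * 84 := by rw [this, h9]
  rw [h7] at h8
  have h10 : u i * u j = 1 := by
    generalize u i * u j = x at h8 ⊢
    linarith
  rw [h10]
  simp only [Matrix.smul_apply, JM_apply, smul_eq_mul]

theorem spec {V : Type*} [Fintype V] [DecidableEq V] (G : SimpleGraph V) [DecidableRel G.Adj]
    (hc : (G.adjMatrix ℝ).charpoly = (kneser93.adjMatrix ℝ).charpoly) :
    Fintype.card V = 84 ∧ (G.adjMatrix ℝ) * JM V = (20:ℝ) • JM V ∧
    (G.adjMatrix ℝ) * (G.adjMatrix ℝ) * (G.adjMatrix ℝ)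
      + (7:ℝ) • ((G.adjMatrix ℝ) * (G.adjMatrix ℝ)) - (34:ℝ) • (G.adjMatrix ℝ)
      - (40:ℝ) • (1 : Matrix V V ℝ) = (120:ℝ) • JM V := by
  have hcard : Fintype.card V = Fintype.card Tri := by
    rw [← Matrix.charpoly_natDegree_eq_dim (G.adjMatrix ℝ), hc, Matrix.charpoly_natDegree_eq_dim]
  let e : V ≃ Tri := Fintype.equivOfCardEq hcard
  let H : SimpleGraph Tri := G.comap e.symm
  have : DecidableRel H.Adj := fun a b => by
    unfold H
    simp only [SimpleGraph.comap_adj]
    infer_instance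
  have hH : H.adjMatrix ℝ = Matrix.reindex e e (G.adjMatrix ℝ) := by
    ext s t
    simp [H, SimpleGraph.adjMatrix_apply]
  have hcH : (H.adjMatrix ℝ).charpoly = KM.charpoly := by
    rw [hH, Matrix.charpoly_reindex, hc]
  obtain ⟨h1, h2⟩ := spec_tri H hcH
  refine ⟨hcard.trans card_tri, ?_, ?_⟩
  · apply (Matrix.reindexAlgEquiv ℝ ℝ e).injective
    rw [map_mul, map_smul]
    have hJ : Matrix.reindexAlgEquiv ℝ ℝ e (JM V) = JM Tri := by
      ext s t; simp
    have hA : Matrix.reindexAlgEquiv ℝ ℝ e (G.adjMatrix ℝ) = H.adjMatrix ℝ := by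
      rw [hH]; rfl
    rw [hJ, hA, h1]
  · apply (Matrix.reindexAlgEquiv ℝ ℝ e).injective
    have hJ : Matrix.reindexAlgEquiv ℝ ℝ e (JM V) = JM Tri := by
      ext s t; simp
    have hA : Matrix.reindexAlgEquiv ℝ ℝ e (G.adjMatrix ℝ) = H.adjMatrix ℝ := by
      rw [hH]; rfl
    simp only [map_sub, map_add, map_mul, map_smul, map_one]
    rw [hJ, hA, h2]

end Pool.Agent.helper3.K93
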