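import Mathlib

/-!
# Matroid intersection (finite, two matroids), min-max form

Short inductive proof by deletion / contraction and submodularity.
-/

set_option autoImplicit false

open Set

namespace Pool.Agent.helper3

set_option linter.unusedSectionVars false

variable {α : Type*} [Finite α]

/-- natural-number valued rank -/
noncomputable def rk (M : Matroid α) (X : Set α) : ℕ := (M.eRk X).toNat

lemma eRk_ne_top (M : Matroid α) (X : Set α) : M.eRk X ≠ ⊤ := by
  have h1 : M.eRk X ≤ X.encard := M.eRk_le_encard X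
  have h2 : X.encard < ⊤ := Set.encard_lt_top_iff.2 (Set.toFinite X)
  exact (lt_of_le_of_lt h1 h2).ne

lemma coe_rk (M : Matroid α) (X : Set α) : ((rk M X : ℕ) : ℕ∞) = M.eRk X := by
  unfold rk
  exact ENat.natCast_toNat (eRk_ne_top M X)

lemma rk_submod (M : Matroid α) (X Y : Set α) :
    rk M (X ∩ Y) + rk M (X ∪ Y) ≤ rk M X + rk M Y := by
  have h := M.eRk_submod X Y
  rw [← coe_rk, ← coe_rk, ← coe_rk, ← coe_rk] at h
  exact_mod_cast h

lemma rk_mono (M : Matroid α) {X Y : Set α} (h : X ⊆ Y) : rk M X ≤ rk M Y := by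
  have h : M.eRk X ≤ M.eRk Y := M.eRk_mono h
  rw [← coe_rk, ← coe_rk] at h
  exact_mod_cast h

lemma rk_indep {M : Matroid α} {I : Set α} (h : M.Indep I) : rk M I = I.ncard := by
  unfold rk
  rw [h.eRk_eq_encard]
  rfl

lemma rk_le_ncard (M : Matroid α) (X : Set α) : rk M X ≤ X.ncard := by
  have h := M.eRk_le_encard X
  rw [← coe_rk, ← Set.Finite.cast_ncard_eq (Set.toFinite X)] at h
  exact_mod_cast h

lemma indep_ncard_le_rk {M : Matroid α} {I X : Set α} (h : M.Indep I) (hX : I ⊆ X) :
    I.ncard ≤ rk M X := by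
  rw [← rk_indep h]
  exact rk_mono M hX

/-- if no element of `A` extends the independent set `C`, then `A ∪ C` has the rank of `C`. -/
lemma rk_union_of_forall {M : Matroid α} {A C : Set α} (hC : M.Indep C)
    (h : ∀ e ∈ A, e ∉ C → ¬ M.Indep (insert e C)) : rk M (A ∪ C) = C.ncard := by
  have h1 : (A ∪ C) ∩ M.E ⊆ M.closure C := by
    rintro x ⟨hx, hxE⟩
    by_cases hxC : x ∈ C
    · exact M.mem_closure_of_mem hxC hC.subset_ground
    · rcases hx with hxA | hxC'
      · rw [hC.mem_closure_iff_of_notMem hxC, Matroid.dep_iff]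
        refine ⟨h x hxA hxC, ?_⟩
        exact insert_subset hxE hC.subset_ground
      · exact absurd hxC' hxC
  have h2 : M.eRk (A ∪ C) ≤ M.eRk C := by
    rw [← M.eRk_inter_ground (A ∪ C), ← M.eRk_closure_eq C]
    exact M.eRk_mono h1
  have h3 : M.eRk C ≤ M.eRk (A ∪ C) := M.eRk_mono subset_union_right
  have h4 := le_antisymm h2 h3
  unfold rk
  rw [h4, hC.eRk_eq_encard]
  rfl

/-- Matroid intersection theorem, with a contracted set `C`. -/
theorem inter_aux (M₁ M₂ : Matroid α) : ∀ (m : ℕ) (E C : Set α) (k : ℕ), E.ncard = m →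
    Disjoint E C → M₁.Indep C → M₂.Indep C →
    (∀ A ⊆ E, k + 2 * C.ncard ≤ rk M₁ (A ∪ C) + rk M₂ ((E \ A) ∪ C)) →
    ∃ I ⊆ E, k ≤ I.ncard ∧ M₁.Indep (I ∪ C) ∧ M₂.Indep (I ∪ C) := by
  intro m
  induction m with
  | zero =>
    intro E C k hE hdisj hC₁ hC₂ h
    have hE' : E = ∅ := (Set.ncard_eq_zero (Set.toFinite E)).1 hE
    refine ⟨∅, empty_subset _, ?_, by simpa using hC₁, by simpa using hC₂⟩
    have := h ∅ (empty_subset _)
    rw [hE'] at this
    simp only [empty_union, sdiff_empty] at this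
    rw [rk_indep hC₁, rk_indep hC₂] at this
    simp only [ncard_empty]
    omega
  | succ m ih =>
    intro E C k hE hdisj hC₁ hC₂ h
    rcases Nat.eq_zero_or_pos k with hk | hk
    · exact ⟨∅, empty_subset _, by omega, by simpa using hC₁, by simpa using hC₂⟩
    by_cases hall : ∀ e ∈ E, ¬ (M₁.Indep (insert e C) ∧ M₂.Indep (insert e C))
    · exfalso
      have h1 := h {e ∈ E | ¬ M₁.Indep (insert e C)} (fun x hx => hx.1)
      rw [rk_union_of_forall hC₁ (fun e he _ => he.2),
        rk_union_of_forall hC₂ (fun e he _ => ?_)] at h1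
      · omega
      · rcases he with ⟨heE, he2⟩
        intro hcon
        have : M₁.Indep (insert e C) := by
          by_contra hc
          exact he2 ⟨heE, hc⟩
        exact hall e heE ⟨this, hcon⟩
    · push Not at hall
      obtain ⟨e, heE, he₁, he₂⟩ := hall
      have heC : e ∉ C := fun hc => (Set.disjoint_left.1 hdisj heE hc)
      set E' := E \ {e} with hE'
      have hE'card : E'.ncard = m := by
        rw [hE', Set.ncard_sdiff_singleton_of_mem heE, hE]
        omega
      have heE' : e ∉ E' := by simp [hE']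
      have hE'E : E' ⊆ E := sdiff_subset
      by_cases hdel : ∀ A ⊆ E', k + 2 * C.ncard ≤ rk M₁ (A ∪ C) + rk M₂ ((E' \ A) ∪ C)
      · obtain ⟨I, hI, hk, h1, h2⟩ := ih E' C k hE'card (hdisj.mono_left hE'E) hC₁ hC₂ hdel
        exact ⟨I, hI.trans hE'E, hk, h1, h2⟩
      by_cases hcon : ∀ B ⊆ E', (k - 1) + 2 * (insert e C).ncard ≤
          rk M₁ (B ∪ insert e C) + rk M₂ ((E' \ B) ∪ insert e C)
      · have hd : Disjoint E' (insert e C) := by
          rw [Set.disjoint_insert_right]
          exact ⟨heE', hdisj.mono_left hE'E⟩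
        obtain ⟨I, hI, hk', h1, h2⟩ := ih E' (insert e C) (k - 1) hE'card hd he₁ he₂ hcon
        refine ⟨insert e I, insert_subset heE (hI.trans hE'E), ?_, ?_, ?_⟩
        · rw [Set.ncard_insert_of_notMem (fun hc => heE' (hI hc))]
          omega
        · rw [insert_union, ← union_insert]; exact h1
        · rw [insert_union, ← union_insert]; exact h2
      exfalso
      push Not at hdel hcon
      obtain ⟨A, hA, hA'⟩ := hdel
      obtain ⟨B, hB, hB'⟩ := hcon
      have hcard : (insert e C).ncard = C.ncard + 1 := Set.ncard_insert_of_notMem heC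
      rw [hcard] at hB'
      have heA : e ∉ A := fun hc => heE' (hA hc)
      have heB : e ∉ B := fun hc => heE' (hB hc)
      -- submodularity for M₁
      have s1 := rk_submod M₁ (A ∪ C) (B ∪ insert e C)
      have s2 := rk_submod M₂ ((E' \ A) ∪ C) ((E' \ B) ∪ insert e C)
      have e1 : (A ∪ C) ∩ (B ∪ insert e C) = (A ∩ B) ∪ C := by
        ext x
        simp only [mem_inter_iff, mem_union, mem_insert_iff]
        constructor
        · rintro ⟨h1, h2⟩
          rcases h1 with h1 | h1
          · rcases h2 with h2 | h2 | h2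
            · exact Or.inl ⟨h1, h2⟩
            · subst h2; exact absurd h1 heA
            · exact Or.inr h2
          · exact Or.inr h1
        · rintro (⟨h1, h2⟩ | h1)
          · exact ⟨Or.inl h1, Or.inl h2⟩
          · exact ⟨Or.inr h1, Or.inr (Or.inr h1)⟩
      have e2 : (A ∪ C) ∪ (B ∪ insert e C) = (insert e (A ∪ B)) ∪ C := by
        ext x
        simp only [mem_union, mem_insert_iff]
        tauto
      have e3 : ((E' \ A) ∪ C) ∩ ((E' \ B) ∪ insert e C) = (E \ (insert e (A ∪ B))) ∪ C := by
        ext x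
        simp only [mem_inter_iff, mem_union, mem_insert_iff, mem_sdiff, hE', mem_singleton_iff]
        constructor
        · rintro ⟨h1, h2⟩
          rcases h1 with ⟨⟨hxE, hxe⟩, hxA⟩ | h1
          · rcases h2 with ⟨⟨_, _⟩, hxB⟩ | h2 | h2
            · left
              exact ⟨hxE, by tauto⟩
            · exact absurd h2 hxe
            · exact Or.inr h2
          · exact Or.inr h1
        · rintro (⟨h1, h2⟩ | h1)
          · refine ⟨Or.inl ⟨⟨h1, ?_⟩, ?_⟩, Or.inl ⟨⟨h1, ?_⟩, ?_⟩⟩ <;> tauto
          · exact ⟨Or.inr h1, Or.inr (Or.inr h1)⟩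
      have e4 : ((E' \ A) ∪ C) ∪ ((E' \ B) ∪ insert e C) = (E \ (A ∩ B)) ∪ C := by
        ext x
        simp only [mem_inter_iff, mem_union, mem_insert_iff, mem_sdiff, hE', mem_singleton_iff]
        constructor
        · rintro ((h1 | h1) | (h1 | h1 | h1))
          · left; exact ⟨h1.1.1, fun hc => h1.2 hc.1⟩
          · exact Or.inr h1
          · left; exact ⟨h1.1.1, fun hc => h1.2 hc.2⟩
          · subst h1; left; exact ⟨heE, fun hc => heA hc.1⟩
          · exact Or.inr h1
        · rintro (⟨h1, h2⟩ | h1)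
          · by_cases hxe : x = e
            · right; right; left; exact hxe
            · by_cases hxA : x ∈ A
              · right; left; exact ⟨⟨h1, hxe⟩, fun hc => h2 ⟨hxA, hc⟩⟩
              · left; left; exact ⟨⟨h1, hxe⟩, hxA⟩
          · exact Or.inl (Or.inr h1)
      rw [e1, e2] at s1
      rw [e3, e4] at s2
      have g1 := h (A ∩ B) (inter_subset_left.trans (hA.trans hE'E))
      have g2 := h (insert e (A ∪ B)) (insert_subset heE (union_subset (hA.trans hE'E) (hB.trans hE'E)))
      omega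

/-- Matroid intersection theorem: there are a set `A` and a common independent set `I` with
`|I| = r₁(A) + r₂(Aᶜ)`. -/
theorem exists_inter (M₁ M₂ : Matroid α) :
    ∃ (A I : Set α), M₁.Indep I ∧ M₂.Indep I ∧ I.ncard = rk M₁ A + rk M₂ Aᶜ := by
  obtain ⟨A, hA⟩ := Finite.exists_min (fun A : Set α => rk M₁ A + rk M₂ Aᶜ)
  have := inter_aux M₁ M₂ (Set.univ : Set α).ncard Set.univ ∅ (rk M₁ A + rk M₂ Aᶜ) rfl
    (by simp) M₁.empty_indep M₂.empty_indep (by
      intro B _
      have := hA B
      simp only [ncard_empty, union_empty]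
      rw [← Set.compl_eq_univ_sdiff]
      simpa using this)
  obtain ⟨I, -, hI, h1, h2⟩ := this
  simp only [union_empty] at h1 h2
  refine ⟨A, I, h1, h2, le_antisymm ?_ hI⟩
  have a1 : (I ∩ A).ncard ≤ rk M₁ A := indep_ncard_le_rk (h1.subset inter_subset_left) inter_subset_right
  have a2 : (I \ A).ncard ≤ rk M₂ Aᶜ := indep_ncard_le_rk (h2.subset sdiff_subset) (fun x hx => hx.2)
  have a3 : (I ∩ A).ncard + (I \ A).ncard = I.ncard := Set.ncard_inter_add_ncard_sdiff_eq_ncard I A (Set.toFinite I)
  omega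

end Pool.Agent.helper3
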